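import Pool.Agent.R15.OC.Rel

/-!
# Asphericity and free sides
-/

set_option autoImplicit false

namespace Pool.Agent.R15.OC

variable {X R A : Type} [Group A]

/-- The cellular 1-chain of the path of a word, starting at `a`, in the covering belonging to
`ρ`. -/
noncomputable def chain (ρ : FreeGroup X →* A) : A → List (X × Bool) → ((X × A) →₀ ℤ)
  | _, [] => 0
  | a, (x, true) :: l => Finsupp.single (x, a) 1 + chain ρ (a * ρ (FreeGroup.of x)) l
  | a, (x, false) :: l =>
      -Finsupp.single (x, a * (ρ (FreeGroup.of x))⁻¹) 1 +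
        chain ρ (a * (ρ (FreeGroup.of x))⁻¹) l

/-- The cellular boundary operator from the 2-chains to the 1-chains of the covering belonging to
`ρ`. -/
noncomputable def bd (ρ : FreeGroup X →* A) (att : R → List (X × Bool)) (z : (R × A) →₀ ℤ) :
    (X × A) →₀ ℤ :=
  z.sum fun d n => n • chain ρ d.2 (att d.1)

/-- The 2-complex with one vertex, the 1-cells `X` and the 2-cells `Q` is aspherical: the boundary
operator of its universal covering is injective on the 2-chains. -/
def Asph (att : R → List (X × Bool)) (Q : Set R) : Prop :=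
  ∀ z : (R × Grp att Q) →₀ ℤ, (∀ d ∈ z.support, d.1 ∈ Q) →
    bd (PresentedGroup.mk ((fun r => FreeGroup.mk (att r)) '' Q)) att z = 0 → z = 0

theorem chain_notMem (ρ : FreeGroup X →* A) (s : X × A) :
    ∀ (l : List (X × Bool)) (a : A), s ∉ occ ρ a l → chain ρ a l s = 0 := by
  classical
  intro l
  induction l with
  | nil => intro a _; rfl
  | cons p l ih =>
    intro a h
    obtain ⟨x, ε⟩ := p
    cases ε with
    | true =>
      have h' : s ∉ (x, a) :: occ ρ (a * ρ (FreeGroup.of x)) l := h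
      rw [List.mem_cons, not_or] at h'
      show (Finsupp.single (x, a) 1 + chain ρ (a * ρ (FreeGroup.of x)) l : (X × A) →₀ ℤ) s = 0
      rw [Finsupp.add_apply, ih _ h'.2, Finsupp.single_eq_of_ne h'.1, add_zero]
    | false =>
      have h' : s ∉ (x, a * (ρ (FreeGroup.of x))⁻¹) ::
        occ ρ (a * (ρ (FreeGroup.of x))⁻¹) l := h
      rw [List.mem_cons, not_or] at h'
      show (-Finsupp.single (x, a * (ρ (FreeGroup.of x))⁻¹) 1 +
        chain ρ (a * (ρ (FreeGroup.of x))⁻¹) l : (X × A) →₀ ℤ) s = 0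
      rw [Finsupp.add_apply, ih _ h'.2, Finsupp.neg_apply, Finsupp.single_eq_of_ne h'.1, neg_zero,
        add_zero]

theorem chain_once [DecidableEq X] [DecidableEq A] (ρ : FreeGroup X →* A) (s : X × A) :
    ∀ (l : List (X × Bool)) (a : A), (occ ρ a l).count s = 1 → chain ρ a l s ≠ 0 := by
  intro l
  induction l with
  | nil => intro a h; simp [occ] at h
  | cons p l ih =>
    intro a h
    obtain ⟨x, ε⟩ := p
    cases ε with
    | true =>
      have h' : ((x, a) :: occ ρ (a * ρ (FreeGroup.of x)) l).count s = 1 := h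
      show (Finsupp.single (x, a) 1 + chain ρ (a * ρ (FreeGroup.of x)) l : (X × A) →₀ ℤ) s ≠ 0
      rw [Finsupp.add_apply]
      by_cases hs : (x, a) = s
      · rw [hs, List.count_cons_self] at h'
        have h2 : (occ ρ (a * ρ (FreeGroup.of x)) l).count s = 0 := by omega
        rw [chain_notMem ρ s l _ (List.count_eq_zero.1 h2), hs, Finsupp.single_eq_same]
        norm_num
      · rw [List.count_cons_of_ne hs] at h'
        rw [Finsupp.single_eq_of_ne (fun h => hs h.symm), zero_add]
        exact ih _ h'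
    | false =>
      have h' : ((x, a * (ρ (FreeGroup.of x))⁻¹) ::
        occ ρ (a * (ρ (FreeGroup.of x))⁻¹) l).count s = 1 := h
      show (-Finsupp.single (x, a * (ρ (FreeGroup.of x))⁻¹) 1 +
        chain ρ (a * (ρ (FreeGroup.of x))⁻¹) l : (X × A) →₀ ℤ) s ≠ 0
      rw [Finsupp.add_apply, Finsupp.neg_apply]
      by_cases hs : (x, a * (ρ (FreeGroup.of x))⁻¹) = s
      · rw [hs, List.count_cons_self] at h'
        have h2 : (occ ρ (a * (ρ (FreeGroup.of x))⁻¹) l).count s = 0 := by omega
        rw [chain_notMem ρ s l _ (List.count_eq_zero.1 h2), hs, Finsupp.single_eq_same]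
        norm_num
      · rw [List.count_cons_of_ne hs] at h'
        rw [Finsupp.single_eq_of_ne (fun h => hs h.symm), neg_zero, zero_add]
        exact ih _ h'

theorem bd_apply_free (ρ : FreeGroup X →* A) (att : R → List (X × Bool)) (z : (R × A) →₀ ℤ)
    (d : R × A) (hd : d ∈ z.support) (s : X × A)
    (h : ∀ d' ∈ z.support, d' ≠ d → s ∉ occ ρ d'.2 (att d'.1)) :
    bd ρ att z s = z d * chain ρ d.2 (att d.1) s := by
  classical
  unfold bd Finsupp.sum
  rw [Finset.sum_apply', Finset.sum_eq_single d]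
  · rw [Finsupp.smul_apply, smul_eq_mul]
  · intro d' hd' hne
    rw [Finsupp.smul_apply, smul_eq_mul, chain_notMem ρ s _ _ (h d' hd' hne), mul_zero]
  · intro hn
    exact absurd hd hn

theorem occ_map_aux (ρ : FreeGroup X →* A) (a : A) : ∀ (l : List (X × Bool)) (v : FreeGroup X),
    occ ρ (a * ρ v) l =
      (occ (MonoidHom.id (FreeGroup X)) v l).map fun p => (p.1, a * ρ p.2) := by
  intro l
  induction l with
  | nil => intro v; rfl
  | cons p l ih =>
    intro v
    obtain ⟨y, ε⟩ := p
    cases ε with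
    | true =>
      show (y, a * ρ v) :: occ ρ (a * ρ v * ρ (FreeGroup.of y)) l =
        (y, a * ρ v) :: (occ (MonoidHom.id _) (v * FreeGroup.of y) l).map _
      rw [mul_assoc, ← map_mul, ih]
    | false =>
      show (y, a * ρ v * (ρ (FreeGroup.of y))⁻¹) :: occ ρ (a * ρ v * (ρ (FreeGroup.of y))⁻¹) l =
        (y, a * ρ (v * (FreeGroup.of y)⁻¹)) ::
          (occ (MonoidHom.id _) (v * (FreeGroup.of y)⁻¹) l).map _
      rw [mul_assoc, ← map_inv, ← map_mul, ih]

theorem occ_map (ρ : FreeGroup X →* A) (a : A) (l : List (X × Bool)) :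
    occ ρ a l = (occ (MonoidHom.id (FreeGroup X)) 1 l).map fun p => (p.1, a * ρ p.2) := by
  rw [← occ_map_aux, map_one, mul_one]

theorem occ_mem (Y : Set X) : ∀ (l : List (X × Bool)) (v : FreeGroup X),
    (∀ p ∈ l, p.1 ∈ Y) → v ∈ Subgroup.closure (FreeGroup.of '' Y) →
    ∀ q ∈ occ (MonoidHom.id (FreeGroup X)) v l,
      q.1 ∈ Y ∧ q.2 ∈ Subgroup.closure (FreeGroup.of '' Y) := by
  intro l
  induction l with
  | nil => intro v _ _ q hq; exact absurd hq (List.not_mem_nil)
  | cons p l ih =>
    intro v hl hv q hq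
    obtain ⟨y, ε⟩ := p
    have hy : y ∈ Y := hl _ List.mem_cons_self
    have hoy : FreeGroup.of y ∈ Subgroup.closure (FreeGroup.of '' Y) :=
      Subgroup.subset_closure ⟨y, hy, rfl⟩
    have hl' : ∀ p ∈ l, p.1 ∈ Y := fun p hp => hl p (List.mem_cons_of_mem _ hp)
    cases ε with
    | true =>
      have hq' : q ∈ (y, v) :: occ (MonoidHom.id _) (v * FreeGroup.of y) l := hq
      rcases List.mem_cons.1 hq' with rfl | hq'
      · exact ⟨hy, hv⟩
      · exact ih _ hl' (Subgroup.mul_mem _ hv hoy) q hq'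
    | false =>
      have hq' : q ∈ (y, v * (FreeGroup.of y)⁻¹) ::
        occ (MonoidHom.id _) (v * (FreeGroup.of y)⁻¹) l := hq
      rcases List.mem_cons.1 hq' with rfl | hq'
      · exact ⟨hy, Subgroup.mul_mem _ hv (Subgroup.inv_mem _ hoy)⟩
      · exact ih _ hl' (Subgroup.mul_mem _ hv (Subgroup.inv_mem _ hoy)) q hq'

theorem countP_one_unique {α : Type} (q : α → Bool) : ∀ (l : List α), l.countP q = 1 →
    ∀ a ∈ l, ∀ b ∈ l, q a = true → q b = true → a = b := by
  intro l
  induction l with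
  | nil => intro h; simp at h
  | cons c l ih =>
    intro h a ha b hb hqa hqb
    by_cases hc : q c = true
    · rw [List.countP_cons_of_pos hc] at h
      have h0 : l.countP q = 0 := by omega
      have hno : ∀ x ∈ l, ¬ q x = true := List.countP_eq_zero.1 h0
      rcases List.mem_cons.1 ha with rfl | ha
      · rcases List.mem_cons.1 hb with rfl | hb
        · rfl
        · exact absurd hqb (hno b hb)
      · exact absurd hqa (hno a ha)
    · rw [List.countP_cons_of_neg hc] at h
      rcases List.mem_cons.1 ha with rfl | ha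
      · exact absurd hqa hc
      · rcases List.mem_cons.1 hb with rfl | hb
        · exact absurd hqb hc
        · exact ih h a ha b hb hqa hqb

/-- The core argument: a 2-cycle of the universal covering contains no cells with the free side
property. -/
theorem cycle_core (att : R → List (X × Bool)) (Q : Set R) (Y Yn : Set X) (Q₁ : Set R)
    (hlet : ∀ r ∈ Q₁, ∀ p ∈ att r, p.1 ∈ Yn) (ρ : FreeGroup X →* A)
    (hρ : ∀ v ∈ Subgroup.closure (FreeGroup.of '' Yn),
      v ∈ Subgroup.normalClosure ((fun r => FreeGroup.mk (att r)) '' Q) → ρ v = 1)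
    (hfree : FreeSidesRel ρ att Y Q₁) (z : (R × Grp att Q) →₀ ℤ)
    (hz : ∀ d ∈ z.support, d.1 ∈ Q₁ ∨ ∀ p ∈ att d.1, p.1 ∈ Y)
    (hbd : bd (PresentedGroup.mk ((fun r => FreeGroup.mk (att r)) '' Q)) att z = 0) :
    ∀ d ∈ z.support, d.1 ∉ Q₁ := by
  classical
  intro d₀ hd₀ hd₀Q
  set π : FreeGroup X →* Grp att Q := PresentedGroup.mk _ with hπ
  -- equal classes have equal images
  have hρ' : ∀ u ∈ Subgroup.closure (FreeGroup.of '' Yn),
      ∀ v ∈ Subgroup.closure (FreeGroup.of '' Yn), π u = π v → ρ u = ρ v := by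
    intro u hu v hv h
    have h1 : ρ (u⁻¹ * v) = 1 := by
      refine hρ _ (Subgroup.mul_mem _ (Subgroup.inv_mem _ hu) hv) ?_
      rw [← PresentedGroup.mk_eq_one_iff, ← hπ, map_mul, map_inv, h, inv_mul_cancel]
    rw [map_mul, map_inv, inv_mul_eq_one] at h1
    exact h1
  -- the elements of the coset
  let C : Grp att Q → Prop := fun g =>
    ∃ v ∈ Subgroup.closure (FreeGroup.of '' Yn), π v = d₀.2⁻¹ * g
  let lf : Grp att Q → FreeGroup X := fun g => if h : C g then h.choose else 1
  have hlf : ∀ g, C g → lf g ∈ Subgroup.closure (FreeGroup.of '' Yn) ∧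
      π (lf g) = d₀.2⁻¹ * g := by
    intro g hg
    have h1 : lf g = hg.choose := dif_pos hg
    rw [h1]
    exact hg.choose_spec
  let St : Finset (R × Grp att Q) := z.support.filter fun d => d.1 ∈ Q₁ ∧ C d.2
  have hd₀S : d₀ ∈ St := by
    refine Finset.mem_filter.2 ⟨hd₀, hd₀Q, 1, Subgroup.one_mem _, ?_⟩
    rw [map_one, inv_mul_cancel]
  obtain ⟨d₁, hd₁, s, hs1, hs2, hs3⟩ := hfree (St.image fun d => (d.1, ρ (lf d.2)))
    ⟨_, Finset.mem_image_of_mem _ hd₀S⟩ (by
      intro d hd
      obtain ⟨e, he, rfl⟩ := Finset.mem_image.1 hd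
      exact (Finset.mem_filter.1 he).2.1)
  obtain ⟨⟨r, g⟩, hrg, rfl⟩ := Finset.mem_image.1 hd₁
  obtain ⟨hrg1, hrg2, hrg3⟩ := Finset.mem_filter.1 hrg
  simp only at hs2 hrg2 hrg3
  obtain ⟨hg1, hg2⟩ := hlf g hrg3
  -- the sides of the 2-cell `r`
  have hcount : (occ (MonoidHom.id (FreeGroup X)) 1 (att r)).countP
      (fun p => decide ((p.1, ρ (lf g) * ρ p.2) = s)) = 1 := by
    have h1 := hs2
    rw [occ_map, List.count, List.countP_map] at h1
    rw [← h1]
    refine List.countP_congr fun p _ => ?_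
    simp
  have hex : ∃ p ∈ occ (MonoidHom.id (FreeGroup X)) 1 (att r),
      (p.1, ρ (lf g) * ρ p.2) = s := by
    by_contra hcon
    push Not at hcon
    have h0 : (occ (MonoidHom.id (FreeGroup X)) 1 (att r)).countP
      (fun p => decide ((p.1, ρ (lf g) * ρ p.2) = s)) = 0 := by
      rw [List.countP_eq_zero]
      intro p hp
      simp [hcon p hp]
    rw [h0] at hcount
    exact absurd hcount (by norm_num)
  obtain ⟨⟨x, u⟩, hxu, rfl⟩ := hex
  simp only at hs1 hs3 hcount
  obtain ⟨hxY, huY⟩ := occ_mem Yn (att r) 1 (hlet r hrg2) (Subgroup.one_mem _) _ hxu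
  simp only at hxY huY
  -- the side upstairs
  have honce : (occ π g (att r)).count (x, g * π u) = 1 := by
    apply le_antisymm
    · rw [occ_map, List.count, List.countP_map, ← hcount]
      refine List.countP_mono_left fun p hp hp2 => ?_
      simp only [Function.comp, beq_iff_eq, Prod.mk.injEq, decide_eq_true_eq] at hp2 ⊢
      obtain ⟨h1, h2⟩ := hp2
      refine ⟨h1, ?_⟩
      have h3 := (occ_mem Yn (att r) 1 (hlet r hrg2) (Subgroup.one_mem _) p hp).2
      rw [hρ' _ h3 _ huY (mul_left_cancel h2)]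
    · rw [Nat.one_le_iff_ne_zero, ← Nat.pos_iff_ne_zero, List.count_pos_iff, occ_map]
      exact List.mem_map.2 ⟨(x, u), hxu, rfl⟩
  have hmiss : ∀ d' ∈ z.support, d' ≠ (r, g) → (x, g * π u) ∉ occ π d'.2 (att d'.1) := by
    rintro ⟨r', g'⟩ hd' hne hmem
    simp only at hmem
    rw [occ_map, List.mem_map] at hmem
    obtain ⟨⟨y, u'⟩, hyu, heq⟩ := hmem
    have h1 : y = x := (Prod.mk.inj heq).1
    have h2 : g' * π u' = g * π u := (Prod.mk.inj heq).2
    subst h1
    rcases hz _ hd' with hr' | hr'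
    · simp only at hr'
      obtain ⟨-, hu'Y⟩ := occ_mem Yn (att r') 1 (hlet r' hr') (Subgroup.one_mem _) _ hyu
      simp only at hu'Y
      have h3 : g' = g * π u * (π u')⁻¹ := by rw [← h2, mul_inv_cancel_right]
      have hv : lf g * u * u'⁻¹ ∈ Subgroup.closure (FreeGroup.of '' Yn) :=
        Subgroup.mul_mem _ (Subgroup.mul_mem _ hg1 huY) (Subgroup.inv_mem _ hu'Y)
      have hπv : π (lf g * u * u'⁻¹) = d₀.2⁻¹ * g' := by
        rw [map_mul, map_mul, map_inv, hg2, h3]
        group
      have hCg' : C g' := ⟨_, hv, hπv⟩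
      obtain ⟨hg'1, hg'2⟩ := hlf g' hCg'
      have h4 : ρ (lf g') = ρ (lf g) * ρ u * (ρ u')⁻¹ := by
        rw [← map_inv, ← map_mul, ← map_mul]
        exact hρ' _ hg'1 _ hv (by rw [hg'2, hπv])
      by_cases h5 : ((r', ρ (lf g')) : R × A) = (r, ρ (lf g))
      · have h6 : r' = r := (Prod.mk.inj h5).1
        have h7 : ρ (lf g') = ρ (lf g) := (Prod.mk.inj h5).2
        subst h6
        have h8 : ρ u = ρ u' := by
          rw [h7, mul_assoc, eq_comm, mul_eq_left, mul_inv_eq_one] at h4
          exact h4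
        have h9 := countP_one_unique _ _ hcount (y, u) hxu (y, u') hyu (by simp)
          (by simp [h8])
        have h10 : u = u' := (Prod.mk.inj h9).2
        subst h10
        exact hne (by rw [mul_right_cancel h2])
      · refine hs3 (r', ρ (lf g')) (Finset.mem_image.2 ⟨(r', g'), Finset.mem_filter.2
          ⟨hd', hr', hCg'⟩, rfl⟩) h5 ?_
        simp only
        rw [occ_map, List.mem_map]
        refine ⟨(y, u'), hyu, ?_⟩
        simp only
        rw [h4, inv_mul_cancel_right]
    · exact hs1 ((occ_mem Y (att r') 1 hr' (Subgroup.one_mem _) _ hyu).1)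
  have hcoef := bd_apply_free π att z (r, g) hrg1 (x, g * π u) hmiss
  rw [hbd, Finsupp.coe_zero, Pi.zero_apply] at hcoef
  rcases mul_eq_zero.1 hcoef.symm with h | h
  · exact (Finsupp.mem_support_iff.1 hrg1) h
  · exact chain_once π (x, g * π u) (att r) g honce h

end Pool.Agent.R15.OC
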