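import Pool.Agent.R15.OC.Asph

/-!
# Asphericity of towers
-/

set_option autoImplicit false

namespace Pool.Agent.R15.OC

open Pool.Agent.TH625.LOG (LOG)

variable {X R : Type} {ι : Type} [LinearOrder ι]

/-- The stage `α`: for a homomorphism `ρ` from the group of the stages up to `α` to some group the
new 2-cells satisfy the free side condition relative to the old 1-cells. -/
def StageA (att : R → List (X × Bool)) (hX : X → ι) (hR : R → ι) (α : ι) : Prop :=
  ∃ (A : Type) (_ : Group A) (ρ : FreeGroup X →* A),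
    (∀ r, hR r ≤ α → ρ (FreeGroup.mk (att r)) = 1) ∧
      FreeSidesRel ρ att {x | hX x < α} {r | hR r = α}

theorem Stage.stageA {att : R → List (X × Bool)} {hX : X → ι} {hR : R → ι} {α : ι}
    (h : Stage att hX hR α) : StageA att hX hR α := by
  obtain ⟨A, iA, ρ, -, h2, h3⟩ := h
  exact ⟨A, iA, ρ, h2, h3⟩

/-- The Freiheitssatz for towers. -/
theorem towerA_frei [WellFoundedLT ι] (att : R → List (X × Bool)) (hX : X → ι) (hR : R → ι)
    (hle : ∀ r, ∀ p ∈ att r, hX p.1 ≤ hR r) (hst : ∀ α, StageA att hX hR α) (Q : Set R) (α : ι)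
    (v : FreeGroup X) (hv : v ∈ Subgroup.closure (FreeGroup.of '' {x | hX x ≤ α}))
    (hv' : v ∈ Subgroup.normalClosure ((fun r => FreeGroup.mk (att r)) '' Q)) :
    v ∈ Subgroup.normalClosure ((fun r => FreeGroup.mk (att r)) '' (Q ∩ {r | hR r ≤ α})) := by
  classical
  have key : ∀ β, α ≤ β →
      v ∈ Subgroup.normalClosure ((fun r => FreeGroup.mk (att r)) '' (Q ∩ {r | hR r ≤ β})) →
      v ∈ Subgroup.normalClosure ((fun r => FreeGroup.mk (att r)) '' (Q ∩ {r | hR r ≤ α})) := by
    intro β
    induction β using WellFoundedLT.induction with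
    | ind β ih =>
      intro hαβ h
      rcases eq_or_lt_of_le hαβ with h1 | h1
      · rw [h1]; exact h
      · obtain ⟨A, iA, ρ, hρ, hfree⟩ := hst β
        have h2 := step_inj att {x | hX x < β} (Q ∩ {r | hR r < β}) (Q ∩ {r | hR r = β})
          (by
            rintro r ⟨-, hr⟩ p hp
            exact lt_of_le_of_lt (hle r p hp) hr) ρ
          (by
            intro r hr
            rw [← split_stage] at hr
            exact hρ r hr.2)
          (hfree.mono Set.inter_subset_right) v
          (Subgroup.closure_mono (Set.image_mono fun x hx => lt_of_le_of_lt hx h1) hv)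
          (by rw [← split_stage]; exact h)
        obtain ⟨T, hT, hT'⟩ := fin_normal _ _ v h2
        rcases T.eq_empty_or_nonempty with rfl | hne
        · refine Subgroup.normalClosure_mono (Set.image_mono ?_) hT'
          intro r hr
          exact absurd hr (Finset.notMem_empty r)
        · obtain ⟨m, hm, hmax⟩ := T.exists_max_image hR hne
          have hmβ : hR m < β := (hT m hm).2
          refine ih (max α (hR m)) (max_lt h1 hmβ) (le_max_left _ _) ?_
          refine Subgroup.normalClosure_mono (Set.image_mono ?_) hT'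
          intro r hr
          exact ⟨(hT r hr).1, le_trans (hmax r hr) (le_max_right _ _)⟩
  obtain ⟨T, hT, hT'⟩ := fin_normal _ _ v hv'
  rcases T.eq_empty_or_nonempty with rfl | hne
  · refine Subgroup.normalClosure_mono (Set.image_mono ?_) hT'
    intro r hr
    exact absurd hr (Finset.notMem_empty r)
  · obtain ⟨m, hm, hmax⟩ := T.exists_max_image hR hne
    refine key (max α (hR m)) (le_max_left _ _) ?_
    refine Subgroup.normalClosure_mono (Set.image_mono ?_) hT'
    intro r hr
    exact ⟨hT r hr, le_trans (hmax r hr) (le_max_right _ _)⟩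

/-- Towers are aspherical. -/
theorem tower_asph [WellFoundedLT ι] (att : R → List (X × Bool)) (hX : X → ι) (hR : R → ι)
    (hle : ∀ r, ∀ p ∈ att r, hX p.1 ≤ hR r) (hst : ∀ α, StageA att hX hR α) (Q : Set R) :
    Asph att Q := by
  classical
  intro z hzQ hbd
  by_contra hne
  obtain ⟨d, hd, hmax⟩ := z.support.exists_max_image (fun d => hR d.1)
    (Finsupp.support_nonempty_iff.2 hne)
  obtain ⟨A, iA, ρ, hρ, hfree⟩ := hst (hR d.1)
  refine cycle_core att Q {x | hX x < hR d.1} {x | hX x ≤ hR d.1} {r | hR r = hR d.1} ?_ ρ ?_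
    hfree z ?_ hbd d hd rfl
  · intro r hr p hp
    have h1 := hle r p hp
    rw [show hR r = hR d.1 from hr] at h1
    exact h1
  · intro v hv hv'
    have h1 := towerA_frei att hX hR hle hst Q (hR d.1) v hv hv'
    have h2 : Subgroup.normalClosure
        ((fun r => FreeGroup.mk (att r)) '' (Q ∩ {r | hR r ≤ hR d.1})) ≤ ρ.ker := by
      refine Subgroup.normalClosure_le_normal ?_
      rintro _ ⟨r, ⟨-, hr⟩, rfl⟩
      exact MonoidHom.mem_ker.2 (hρ r hr)
    exact MonoidHom.mem_ker.1 (h2 h1)
  · intro d' hd'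
    rcases lt_or_eq_of_le (hmax d' hd') with h | h
    · exact Or.inr fun p hp => lt_of_le_of_lt (hle d'.1 p hp) h
    · exact Or.inl h

/-- 2-cycles of the universal covering of `K` are carried by `K₀`. -/
theorem rel_cycle {A : Type} [Group A] (att : R → List (X × Bool)) (Y : Set X) (Q₀ Q₁ : Set R)
    (hQ₀ : ∀ r ∈ Q₀, ∀ p ∈ att r, p.1 ∈ Y) (ρ : FreeGroup X →* A)
    (hρ : ∀ r ∈ Q₀ ∪ Q₁, ρ (FreeGroup.mk (att r)) = 1)
    (hfree : FreeSidesRel ρ att Y Q₁) (z : (R × Grp att (Q₀ ∪ Q₁)) →₀ ℤ)
    (hz : ∀ d ∈ z.support, d.1 ∈ Q₀ ∪ Q₁)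
    (hbd : bd (PresentedGroup.mk ((fun r => FreeGroup.mk (att r)) '' (Q₀ ∪ Q₁))) att z = 0) :
    ∀ d ∈ z.support, d.1 ∈ Q₀ := by
  have h1 := cycle_core att (Q₀ ∪ Q₁) Y Set.univ Q₁ (fun _ _ _ _ => Set.mem_univ _) ρ
    (by
      intro v _ hv
      have h2 : Subgroup.normalClosure
          ((fun r => FreeGroup.mk (att r)) '' (Q₀ ∪ Q₁)) ≤ ρ.ker := by
        refine Subgroup.normalClosure_le_normal ?_
        rintro _ ⟨r, hr, rfl⟩
        exact MonoidHom.mem_ker.2 (hρ r hr)
      exact MonoidHom.mem_ker.1 (h2 hv)) hfree z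
    (by
      intro d hd
      rcases hz d hd with h | h
      · exact Or.inr (hQ₀ _ h)
      · exact Or.inl h) hbd
  intro d hd
  rcases hz d hd with h | h
  · exact h
  · exact absurd h (h1 d hd)

end Pool.Agent.R15.OC
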