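import Pool.Agent.R15.OC.AsphTower

/-!
# Cycles carried by the preimage of a subcomplex
-/

set_option autoImplicit false

namespace Pool.Agent.R15.OC

variable {X R G : Type} [Group G]

theorem bd_add {A : Type} [Group A] (ρ : FreeGroup X →* A) (att : R → List (X × Bool))
    (y z : (R × A) →₀ ℤ) : bd ρ att (y + z) = bd ρ att y + bd ρ att z := by
  classical
  unfold bd
  exact Finsupp.sum_add_index' (fun d => zero_smul _ _) (fun d m n => add_smul _ _ _)

theorem bd_zero {A : Type} [Group A] (ρ : FreeGroup X →* A) (att : R → List (X × Bool)) :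
    bd ρ att (0 : (R × A) →₀ ℤ) = 0 := Finsupp.sum_zero_index

theorem bd_single {A : Type} [Group A] (ρ : FreeGroup X →* A) (att : R → List (X × Bool))
    (d : R × A) (n : ℤ) : bd ρ att (Finsupp.single d n) = n • chain ρ d.2 (att d.1) :=
  Finsupp.sum_single_index (zero_smul _ _)

theorem bd_sum {A : Type} [Group A] (ρ : FreeGroup X →* A) (att : R → List (X × Bool))
    {I : Type} (s : Finset I) (f : I → ((R × A) →₀ ℤ)) :
    bd ρ att (∑ i ∈ s, f i) = ∑ i ∈ s, bd ρ att (f i) := by
  classical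
  induction s using Finset.induction_on with
  | empty => rw [Finset.sum_empty, Finset.sum_empty, bd_zero]
  | insert a s ha ih => rw [Finset.sum_insert ha, Finset.sum_insert ha, bd_add, ih]

/-- Cycles carried by the preimage of a `π₁`-injective aspherical subcomplex vanish. -/
theorem coset_asph (att : R → List (X × Bool)) (Y : Set X) (Q₀ : Set R)
    (hQ₀ : ∀ r ∈ Q₀, ∀ p ∈ att r, p.1 ∈ Y) (hasph : Asph att Q₀)
    (π : FreeGroup X →* G) (hπ : ∀ r ∈ Q₀, π (FreeGroup.mk (att r)) = 1)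
    (hinj : ∀ v ∈ Subgroup.closure (FreeGroup.of '' Y), π v = 1 →
      v ∈ Subgroup.normalClosure ((fun r => FreeGroup.mk (att r)) '' Q₀))
    (z : (R × G) →₀ ℤ) (hz : ∀ d ∈ z.support, d.1 ∈ Q₀) (hbd : bd π att z = 0) : z = 0 := by
  classical
  by_contra hne
  obtain ⟨d₀, hd₀⟩ := Finsupp.support_nonempty_iff.2 hne
  set π₀ : FreeGroup X →* Grp att Q₀ :=
    PresentedGroup.mk ((fun r => FreeGroup.mk (att r)) '' Q₀) with hπ₀
  have h10 : ∀ u ∈ Subgroup.closure (FreeGroup.of '' Y),
      ∀ v ∈ Subgroup.closure (FreeGroup.of '' Y), π u = π v → π₀ u = π₀ v := by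
    intro u hu v hv h
    have h1 : u⁻¹ * v ∈ Subgroup.normalClosure ((fun r => FreeGroup.mk (att r)) '' Q₀) :=
      hinj _ (Subgroup.mul_mem _ (Subgroup.inv_mem _ hu) hv)
        (by rw [map_mul, map_inv, h, inv_mul_cancel])
    rw [← PresentedGroup.mk_eq_one_iff, ← hπ₀, map_mul, map_inv, inv_mul_eq_one] at h1
    exact h1
  have h01 : ∀ u v, π₀ u = π₀ v → π u = π v := by
    intro u v h
    have h1 : π₀ (u⁻¹ * v) = 1 := by rw [map_mul, map_inv, h, inv_mul_cancel]
    rw [hπ₀, PresentedGroup.mk_eq_one_iff] at h1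
    have h2 : Subgroup.normalClosure ((fun r => FreeGroup.mk (att r)) '' Q₀) ≤ π.ker := by
      refine Subgroup.normalClosure_le_normal ?_
      rintro _ ⟨r, hr, rfl⟩
      exact MonoidHom.mem_ker.2 (hπ r hr)
    have h3 := MonoidHom.mem_ker.1 (h2 h1)
    rw [map_mul, map_inv, inv_mul_eq_one] at h3
    exact h3
  let C : G → Prop := fun g => ∃ v ∈ Subgroup.closure (FreeGroup.of '' Y), π v = d₀.2⁻¹ * g
  let lf : G → FreeGroup X := fun g => if h : C g then h.choose else 1
  have hlf : ∀ g, C g → lf g ∈ Subgroup.closure (FreeGroup.of '' Y) ∧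
      π (lf g) = d₀.2⁻¹ * g := by
    intro g hg
    have h1 : lf g = hg.choose := dif_pos hg
    rw [h1]
    exact hg.choose_spec
  let θ : G → Grp att Q₀ := fun g => π₀ (lf g)
  have hCmul : ∀ g, C g → ∀ u ∈ Subgroup.closure (FreeGroup.of '' Y), C (g * π u) := by
    intro g hg u hu
    obtain ⟨h1, h2⟩ := hlf g hg
    exact ⟨lf g * u, Subgroup.mul_mem _ h1 hu, by rw [map_mul, h2, mul_assoc]⟩
  have hθmul : ∀ g, C g → ∀ u ∈ Subgroup.closure (FreeGroup.of '' Y),
      θ (g * π u) = θ g * π₀ u := by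
    intro g hg u hu
    obtain ⟨h1, h2⟩ := hlf g hg
    obtain ⟨h3, h4⟩ := hlf _ (hCmul g hg u hu)
    show π₀ (lf (g * π u)) = π₀ (lf g) * π₀ u
    rw [← map_mul]
    refine h10 _ h3 _ (Subgroup.mul_mem _ h1 hu) ?_
    rw [h4, map_mul, h2, mul_assoc]
  have hCmul' : ∀ g, ∀ u ∈ Subgroup.closure (FreeGroup.of '' Y), C (g * π u) → C g := by
    intro g u hu h
    have h1 := hCmul _ h u⁻¹ (Subgroup.inv_mem _ hu)
    rw [map_inv, mul_inv_cancel_right] at h1
    exact h1
  have hθinj : ∀ g g', C g → C g' → θ g = θ g' → g = g' := by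
    intro g g' hg hg' h
    have h1 := h01 _ _ h
    rw [(hlf g hg).2, (hlf g' hg').2] at h1
    exact mul_left_cancel h1
  -- the restriction of the 1-chains
  let T : ((X × G) →₀ ℤ) →+ ((X × Grp att Q₀) →₀ ℤ) :=
    Finsupp.liftAddHom fun s => if C s.2 then Finsupp.singleAddHom (s.1, θ s.2) else 0
  have hT1 : ∀ (x : X) (g : G), C g → T (Finsupp.single (x, g) 1) = Finsupp.single (x, θ g) 1 := by
    intro x g hg
    show Finsupp.liftAddHom _ (Finsupp.single (x, g) 1) = _
    rw [Finsupp.liftAddHom_apply_single]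
    simp only
    rw [if_pos hg]
    rfl
  have hT0 : ∀ (x : X) (g : G), ¬ C g → T (Finsupp.single (x, g) 1) = 0 := by
    intro x g hg
    show Finsupp.liftAddHom _ (Finsupp.single (x, g) 1) = _
    rw [Finsupp.liftAddHom_apply_single]
    simp only
    rw [if_neg hg]
    rfl
  have hTc : ∀ (l : List (X × Bool)) (g : G), (∀ p ∈ l, p.1 ∈ Y) → C g →
      T (chain π g l) = chain π₀ (θ g) l := by
    intro l
    induction l with
    | nil => intro g _ _; exact map_zero T
    | cons p l ih =>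
      intro g hl hg
      obtain ⟨x, ε⟩ := p
      have hx : x ∈ Y := hl _ List.mem_cons_self
      have hox : FreeGroup.of x ∈ Subgroup.closure (FreeGroup.of '' Y) :=
        Subgroup.subset_closure ⟨x, hx, rfl⟩
      have hl' : ∀ p ∈ l, p.1 ∈ Y := fun p hp => hl p (List.mem_cons_of_mem _ hp)
      cases ε with
      | true =>
        show T (Finsupp.single (x, g) 1 + chain π (g * π (FreeGroup.of x)) l) =
          Finsupp.single (x, θ g) 1 + chain π₀ (θ g * π₀ (FreeGroup.of x)) l
        rw [map_add, hT1 x g hg, ih _ hl' (hCmul g hg _ hox), hθmul g hg _ hox]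
      | false =>
        have hox' := Subgroup.inv_mem _ hox
        have hC' := hCmul g hg _ hox'
        have hθ' := hθmul g hg _ hox'
        rw [map_inv] at hC' hθ'
        rw [map_inv] at hθ'
        show T (-Finsupp.single (x, g * (π (FreeGroup.of x))⁻¹) 1 +
            chain π (g * (π (FreeGroup.of x))⁻¹) l) =
          -Finsupp.single (x, θ g * (π₀ (FreeGroup.of x))⁻¹) 1 +
            chain π₀ (θ g * (π₀ (FreeGroup.of x))⁻¹) l
        rw [map_add, map_neg, hT1 x _ hC', ih _ hl' hC', hθ']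
  have hTn : ∀ (l : List (X × Bool)) (g : G), (∀ p ∈ l, p.1 ∈ Y) → ¬ C g →
      T (chain π g l) = 0 := by
    intro l
    induction l with
    | nil => intro g _ _; exact map_zero T
    | cons p l ih =>
      intro g hl hg
      obtain ⟨x, ε⟩ := p
      have hx : x ∈ Y := hl _ List.mem_cons_self
      have hox : FreeGroup.of x ∈ Subgroup.closure (FreeGroup.of '' Y) :=
        Subgroup.subset_closure ⟨x, hx, rfl⟩
      have hl' : ∀ p ∈ l, p.1 ∈ Y := fun p hp => hl p (List.mem_cons_of_mem _ hp)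
      cases ε with
      | true =>
        show T (Finsupp.single (x, g) 1 + chain π (g * π (FreeGroup.of x)) l) = 0
        rw [map_add, hT0 x g hg, ih _ hl' (fun h => hg (hCmul' g _ hox h)), add_zero]
      | false =>
        have hox' := Subgroup.inv_mem _ hox
        have hC' : ¬ C (g * (π (FreeGroup.of x))⁻¹) := by
          intro h
          rw [← map_inv] at h
          exact hg (hCmul' g _ hox' h)
        show T (-Finsupp.single (x, g * (π (FreeGroup.of x))⁻¹) 1 +
            chain π (g * (π (FreeGroup.of x))⁻¹) l) = 0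
        rw [map_add, map_neg, hT0 x _ hC', ih _ hl' hC', neg_zero, add_zero]
  -- the restriction of the 2-cycle
  let z₀ : (R × Grp att Q₀) →₀ ℤ :=
    ∑ d ∈ z.support, if C d.2 then Finsupp.single (d.1, θ d.2) (z d) else 0
  have hbd₀ : bd π₀ att z₀ = 0 := by
    have h1 : T (bd π att z) = bd π₀ att z₀ := by
      show T (∑ d ∈ z.support, z d • chain π d.2 (att d.1)) = bd π₀ att (∑ d ∈ z.support, _)
      rw [map_sum, bd_sum]
      refine Finset.sum_congr rfl fun d hd => ?_
      rw [map_zsmul]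
      by_cases hC : C d.2
      · rw [if_pos hC, bd_single, hTc _ _ (hQ₀ _ (hz d hd)) hC]
      · rw [if_neg hC, bd_zero, hTn _ _ (hQ₀ _ (hz d hd)) hC, smul_zero]
    rw [← h1, hbd, map_zero]
  have hsupp : ∀ d ∈ z₀.support, d.1 ∈ Q₀ := by
    intro d hd
    by_contra hcon
    apply Finsupp.mem_support_iff.1 hd
    show (∑ d ∈ z.support, if C d.2 then Finsupp.single (d.1, θ d.2) (z d) else 0 :
      (R × Grp att Q₀) →₀ ℤ) d = 0
    rw [Finset.sum_apply']
    refine Finset.sum_eq_zero fun e he => ?_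
    by_cases hC : C e.2
    · rw [if_pos hC]
      refine Finsupp.single_eq_of_ne ?_
      intro h
      exact hcon (h ▸ hz e he)
    · rw [if_neg hC]; rfl
  have hC₀ : C d₀.2 := ⟨1, Subgroup.one_mem _, by rw [map_one, inv_mul_cancel]⟩
  have hz₀ := hasph z₀ hsupp hbd₀
  have h2 : z₀ (d₀.1, θ d₀.2) = z d₀ := by
    show (∑ d ∈ z.support, if C d.2 then Finsupp.single (d.1, θ d.2) (z d) else 0 :
      (R × Grp att Q₀) →₀ ℤ) (d₀.1, θ d₀.2) = z d₀
    rw [Finset.sum_apply', Finset.sum_eq_single d₀]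
    · rw [if_pos hC₀, Finsupp.single_eq_same]
    · intro d hd hne'
      by_cases hC : C d.2
      · rw [if_pos hC]
        refine Finsupp.single_eq_of_ne ?_
        intro h
        apply hne'
        have h3 : d₀.1 = d.1 := (Prod.mk.inj h).1
        have h4 : θ d₀.2 = θ d.2 := (Prod.mk.inj h).2
        exact Prod.ext h3.symm (hθinj _ _ hC hC₀ h4.symm)
      · rw [if_neg hC]; rfl
    · intro h
      exact absurd hd₀ h
  rw [hz₀, Finsupp.coe_zero, Pi.zero_apply] at h2
  exact (Finsupp.mem_support_iff.1 hd₀) h2.symm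

/-- The relative theorem. -/
theorem rel_asph {A : Type} [Group A] (att : R → List (X × Bool)) (Y : Set X) (Q₀ Q₁ : Set R)
    (hQ₀ : ∀ r ∈ Q₀, ∀ p ∈ att r, p.1 ∈ Y) (ρ : FreeGroup X →* A)
    (hρ : ∀ r ∈ Q₀ ∪ Q₁, ρ (FreeGroup.mk (att r)) = 1)
    (hfree : FreeSidesRel ρ att Y Q₁) (hasph : Asph att Q₀) : Asph att (Q₀ ∪ Q₁) := by
  intro z hz hbd
  refine coset_asph att Y Q₀ hQ₀ hasph _ ?_ ?_ z
    (rel_cycle att Y Q₀ Q₁ hQ₀ ρ hρ hfree z hz hbd) hbd
  · intro r hr
    exact PresentedGroup.one_of_mem ⟨r, Or.inl hr, rfl⟩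
  · intro v hv h
    refine step_inj att Y Q₀ Q₁ hQ₀ ρ hρ hfree v hv ?_
    rw [← PresentedGroup.mk_eq_one_iff]
    exact h

end Pool.Agent.R15.OC
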