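import Mathlib
import Pool.Agent.TH625.LOG.LI

/-!
# Relative presentations, coverings and free sides

`B` is a group, `X` a set of new generators, `G` a quotient of the free product `B * F(X)` by the
normal closure of words `w r`. Cocycles on the covering belonging to `ρ : G → A` which are the
identity on `B` and trivial on finitely many 2-cells.
-/

set_option autoImplicit false

namespace Pool.Agent.R15.OC

open Pool.Agent.TH625.LOG (LocInd surj_of_ne exists_finset_hom free_li shiftAut shiftAut_apply)

variable {B X R A G : Type} [Group B] [Group A] [Group G]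

/-- The free product of `B` and the free group on `X`. -/
abbrev P (B X : Type) [Group B] : Type := Monoid.Coprod B (FreeGroup X)

/-- elements of `B` -/
abbrev bb (X : Type) (b : B) : P B X := Monoid.Coprod.inl b

/-- new generators -/
abbrev gx (B : Type) [Group B] (x : X) : P B X := Monoid.Coprod.inr (FreeGroup.of x)

/-- Letters: elements of `B`, new generators (`true`) and their inverses (`false`). -/
abbrev Letter (B X : Type) : Type := B ⊕ (X × Bool)

/-- The value of a letter. -/
def letval : Letter B X → P B X
  | Sum.inl b => bb X b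
  | Sum.inr (x, true) => gx B x
  | Sum.inr (x, false) => (gx B x)⁻¹

/-- The value of a word. -/
def val (w : List (Letter B X)) : P B X := (w.map letval).prod

theorem val_nil : val ([] : List (Letter B X)) = 1 := rfl

theorem val_cons (l : Letter B X) (w : List (Letter B X)) : val (l :: w) = letval l * val w := by
  simp [val]

theorem val_append (u w : List (Letter B X)) : val (u ++ w) = val u * val w := by
  simp [val]

/-- The edges `(x, a)` (from `a` to `a x`) of the covering through which the path of a word passes
which starts at `a`, only those belonging to new generators. -/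
def edg (σ : P B X →* A) : A → List (Letter B X) → List (X × A)
  | _, [] => []
  | a, Sum.inl b :: w => edg σ (a * σ (bb X b)) w
  | a, Sum.inr (x, true) :: w => (x, a) :: edg σ (a * σ (gx B x)) w
  | a, Sum.inr (x, false) :: w => (x, a * (σ (gx B x))⁻¹) :: edg σ (a * (σ (gx B x))⁻¹) w

/-- Every nonempty finite set of 2-cells of the covering has a free side. -/
def FreeSides [DecidableEq X] [DecidableEq A] (σ : P B X →* A) (w : R → List (Letter B X)) :
    Prop :=
  ∀ S : Finset (R × A), S.Nonempty → ∃ d ∈ S, ∃ s : X × A,
    (edg σ d.2 (w d.1)).count s = 1 ∧ ∀ d' ∈ S, d' ≠ d → s ∉ edg σ d'.2 (w d'.1)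

/-- A cocycle on the covering belonging to `ρ : G → A`, over the identity of `G`, trivial on `B`. -/
structure Coc (pr : P B X →* G) (ρ : G →* A) where
  c : A → P B X → P B X
  mul : ∀ a w w', c a (w * w') = c a w * c (a * ρ (pr w)) w'
  pr_c : ∀ a w, pr (c a w) = pr w
  base : ∀ a b, c a (bb X b) = bb X b

namespace Coc

variable {pr : P B X →* G} {ρ : G →* A}

theorem one (C : Coc pr ρ) (a : A) : C.c a 1 = 1 := by
  have h := C.mul a 1 1
  rw [mul_one, map_one, map_one, mul_one] at h
  exact (mul_eq_left.1 h.symm)

theorem inv (C : Coc pr ρ) (a : A) (w : P B X) :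
    C.c a w⁻¹ = (C.c (a * (ρ (pr w))⁻¹) w)⁻¹ := by
  have h := C.mul a w⁻¹ w
  rw [inv_mul_cancel, C.one, map_inv, map_inv] at h
  exact eq_inv_of_mul_eq_one_left h.symm

/-- the trivial cocycle -/
def triv (pr : P B X →* G) (ρ : G →* A) : Coc pr ρ :=
  ⟨fun _ w => w, fun _ _ _ => rfl, fun _ _ => rfl, fun _ _ => rfl⟩

/-- composition -/
def comp (C D : Coc pr ρ) : Coc pr ρ where
  c a w := C.c a (D.c a w)
  mul a w w' := by rw [D.mul, C.mul, D.pr_c]
  pr_c a w := by rw [C.pr_c, D.pr_c]
  base a b := by rw [D.base, C.base]

end Coc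

/-- the cocycle with prescribed values on the new generators -/
theorem exists_lift (pr : P B X →* G) (ρ : G →* A) (C : X → A → P B X)
    (hC : ∀ x a, pr (C x a) = pr (gx B x)) :
    ∃ c : Coc pr ρ, ∀ x a, c.c a (gx B x) = C x a := by
  let ΦB : B →* (A → P B X) ⋊[shiftAut A (P B X)] A :=
    { toFun := fun b => ⟨fun _ => bb X b, ρ (pr (bb X b))⟩
      map_one' := by
        refine SemidirectProduct.ext ?_ ?_
        · funext a
          show bb X (1 : B) = 1
          exact map_one _
        · show ρ (pr (bb X (1 : B))) = 1
          rw [show bb X (1 : B) = 1 from map_one _, map_one, map_one]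
      map_mul' := by
        intro b b'
        refine SemidirectProduct.ext ?_ ?_
        · funext a
          show bb X (b * b') = bb X b * bb X b'
          exact map_mul _ _ _
        · show ρ (pr (bb X (b * b'))) = ρ (pr (bb X b)) * ρ (pr (bb X b'))
          rw [show bb X (b * b') = bb X b * bb X b' from map_mul _ _ _, map_mul, map_mul] }
  let Φ : P B X →* (A → P B X) ⋊[shiftAut A (P B X)] A :=
    Monoid.Coprod.lift ΦB (FreeGroup.lift (fun x => ⟨C x, ρ (pr (gx B x))⟩))
  have hΦb : ∀ b, Φ (bb X b) = ⟨fun _ => bb X b, ρ (pr (bb X b))⟩ := fun b => by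
    show Monoid.Coprod.lift ΦB _ (Monoid.Coprod.inl b) = _
    rw [Monoid.Coprod.lift_apply_inl]
    rfl
  have hΦx : ∀ x, Φ (gx B x) = ⟨C x, ρ (pr (gx B x))⟩ := fun x => by
    show Monoid.Coprod.lift ΦB _ (Monoid.Coprod.inr (FreeGroup.of x)) = _
    rw [Monoid.Coprod.lift_apply_inr, FreeGroup.lift_apply_of]
  have hr : ∀ w, (Φ w).right = ρ (pr w) := by
    intro w
    have h : (SemidirectProduct.rightHom.comp Φ) = ρ.comp pr := by
      refine Monoid.Coprod.hom_ext ?_ ?_
      · ext b
        show (Φ (bb X b)).right = ρ (pr (bb X b))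
        rw [hΦb]
      · ext x
        show (Φ (gx B x)).right = ρ (pr (gx B x))
        rw [hΦx]
    exact DFunLike.congr_fun h w
  have hmul : ∀ a w w', (Φ (w * w')).left a = (Φ w).left a * (Φ w').left (a * ρ (pr w)) := by
    intro a w w'
    rw [map_mul, SemidirectProduct.mul_left, Pi.mul_apply, shiftAut_apply, hr]
  have hone : ∀ a, (Φ 1).left a = 1 := by
    intro a
    rw [map_one]; rfl
  have hinv : ∀ a w, (Φ w⁻¹).left a = ((Φ w).left (a * (ρ (pr w))⁻¹))⁻¹ := by
    intro a w
    have h := hmul a w⁻¹ w
    have h2 : ρ (pr w⁻¹) = (ρ (pr w))⁻¹ := by rw [map_inv, map_inv]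
    rw [inv_mul_cancel, hone, h2] at h
    exact eq_inv_of_mul_eq_one_left h.symm
  have hfree : ∀ (y : FreeGroup X) (a : A),
      pr ((Φ (Monoid.Coprod.inr y)).left a) = pr (Monoid.Coprod.inr y) := by
    intro y
    refine FreeGroup.induction_on (C := fun y => ∀ a : A,
      pr ((Φ (Monoid.Coprod.inr y)).left a) = pr (Monoid.Coprod.inr y)) y ?_ ?_ ?_ ?_
    · intro a; rw [map_one, hone]
    · intro x a
      show pr ((Φ (gx B x)).left a) = pr (gx B x)
      rw [hΦx, hC]
    · intro x h a; rw [map_inv, hinv, map_inv, map_inv, h]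
    · intro x y hx hy a; rw [map_mul, hmul, map_mul, map_mul, hx, hy]
  have hmk : ∀ w a, pr ((Φ w).left a) = pr w := by
    intro w
    induction w using Monoid.Coprod.induction_on with
    | inl b =>
      intro a
      show pr ((Φ (bb X b)).left a) = _
      rw [hΦb]
    | inr y => exact hfree y
    | mul x y hx hy =>
      intro a; rw [hmul, map_mul, map_mul, hx, hy]
  refine ⟨⟨fun a w => (Φ w).left a, hmul, fun a w => hmk w a, fun a b => ?_⟩, fun x a => ?_⟩
  · show (Φ (bb X b)).left a = _
    rw [hΦb]
  · show (Φ (gx B x)).left a = _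
    rw [hΦx]

/-- a cocycle which changes only one edge is the identity on words avoiding it -/
theorem coc_avoid {pr : P B X →* G} {ρ : G →* A} (D : Coc pr ρ) (s : X × A)
    (hD : ∀ x a, (x, a) ≠ s → D.c a (gx B x) = gx B x) :
    ∀ (w : List (Letter B X)) (a : A), s ∉ edg (ρ.comp pr) a w → D.c a (val w) = val w := by
  intro w
  induction w with
  | nil => intro a _; rw [val_nil, D.one]
  | cons l w ih =>
    intro a hs
    rw [val_cons, D.mul]
    rcases l with b | ⟨x, ε⟩
    · have h1 : D.c a (letval (Sum.inl b : Letter B X)) = letval (Sum.inl b) := D.base a b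
      rw [h1]
      exact congrArg _ (ih _ hs)
    · cases ε with
      | true =>
        simp only [edg, List.mem_cons, not_or] at hs
        have h1 : D.c a (letval (Sum.inr (x, true) : Letter B X)) = letval (Sum.inr (x, true)) :=
          hD x a (fun h => hs.1 h.symm)
        rw [h1]
        exact congrArg _ (ih _ hs.2)
      | false =>
        simp only [edg, List.mem_cons, not_or] at hs
        have h1 : D.c a (letval (Sum.inr (x, false) : Letter B X)) =
            letval (Sum.inr (x, false)) := by
          show D.c a (gx B x)⁻¹ = (gx B x)⁻¹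
          have h5 : D.c (a * (ρ (pr (gx B x)))⁻¹) (gx B x) = gx B x :=
            hD x _ (fun h => hs.1 h.symm)
          rw [D.inv, h5]
        rw [h1]
        refine congrArg _ (ih _ ?_)
        have h2 : a * ρ (pr (letval (Sum.inr (x, false) : Letter B X))) =
            a * ((ρ.comp pr) (gx B x))⁻¹ := by
          show a * ρ (pr (gx B x)⁻¹) = _
          rw [map_inv, map_inv]
          rfl
        rw [h2]
        exact hs.2

/-- the decomposition of a word at an edge through which it passes once -/
theorem split_once [DecidableEq X] [DecidableEq A] (σ : P B X →* A) (s : X × A) :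
    ∀ (w : List (Letter B X)) (a : A), (edg σ a w).count s = 1 →
      ∃ (u u' : List (Letter B X)) (ε : Bool), w = u ++ Sum.inr (s.1, ε) :: u' ∧
        s ∉ edg σ a u ∧
        (a * σ (val u) * (if ε then 1 else (σ (gx B s.1))⁻¹) = s.2) ∧
        s ∉ edg σ (a * σ (val u) * σ (letval (Sum.inr (s.1, ε) : Letter B X))) u' := by
  intro w
  induction w with
  | nil => intro a h; simp [edg] at h
  | cons l w ih =>
    intro a h
    rcases l with b | ⟨x, ε⟩
    · obtain ⟨u, u', ε, h1, h2, h3, h4⟩ := ih (a * σ (bb X b)) h
      refine ⟨Sum.inl b :: u, u', ε, by rw [h1]; rfl, h2, ?_, ?_⟩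
      · rw [val_cons, map_mul, ← mul_assoc]; exact h3
      · rw [val_cons, map_mul, ← mul_assoc]; exact h4
    · cases ε with
      | true =>
        by_cases hs : (x, a) = s
        · subst hs
          have h0 : (edg σ (a * σ (gx B x)) w).count (x, a) = 0 := by
            have : ((x, a) :: edg σ (a * σ (gx B x)) w).count (x, a) = 1 := h
            rw [List.count_cons_self] at this
            omega
          refine ⟨[], w, true, rfl, by simp [edg], ?_, ?_⟩
          · simp [val_nil]
          · rw [val_nil, map_one, mul_one]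
            exact List.count_eq_zero.1 h0
        · have h0 : (edg σ (a * σ (gx B x)) w).count s = 1 := by
            have : ((x, a) :: edg σ (a * σ (gx B x)) w).count s = 1 := h
            rwa [List.count_cons_of_ne hs] at this
          obtain ⟨u, u', ε, h1, h2, h3, h4⟩ := ih (a * σ (gx B x)) h0
          refine ⟨Sum.inr (x, true) :: u, u', ε, by rw [h1]; rfl, ?_, ?_, ?_⟩
          · show s ∉ (x, a) :: edg σ (a * σ (gx B x)) u
            rw [List.mem_cons, not_or]
            exact ⟨fun h => hs h.symm, h2⟩
          · rw [val_cons, map_mul, ← mul_assoc]; exact h3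
          · rw [val_cons, map_mul, ← mul_assoc]; exact h4
      | false =>
        have e1 : σ (letval (Sum.inr (x, false) : Letter B X)) = (σ (gx B x))⁻¹ := by
          show σ (gx B x)⁻¹ = _
          rw [map_inv]
        by_cases hs : (x, a * (σ (gx B x))⁻¹) = s
        · subst hs
          have h0 : (edg σ (a * (σ (gx B x))⁻¹) w).count (x, a * (σ (gx B x))⁻¹) = 0 := by
            have : ((x, a * (σ (gx B x))⁻¹) :: edg σ (a * (σ (gx B x))⁻¹) w).count
              (x, a * (σ (gx B x))⁻¹) = 1 := h
            rw [List.count_cons_self] at this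
            omega
          refine ⟨[], w, false, rfl, by simp [edg], ?_, ?_⟩
          · simp [val_nil]
          · rw [val_nil, map_one, mul_one, e1]
            exact List.count_eq_zero.1 h0
        · have h0 : (edg σ (a * (σ (gx B x))⁻¹) w).count s = 1 := by
            have : ((x, a * (σ (gx B x))⁻¹) :: edg σ (a * (σ (gx B x))⁻¹) w).count s = 1 := h
            rwa [List.count_cons_of_ne hs] at this
          obtain ⟨u, u', ε, h1, h2, h3, h4⟩ := ih (a * (σ (gx B x))⁻¹) h0
          refine ⟨Sum.inr (x, false) :: u, u', ε, by rw [h1]; rfl, ?_, ?_, ?_⟩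
          · show s ∉ (x, a * (σ (gx B x))⁻¹) :: edg σ (a * (σ (gx B x))⁻¹) u
            rw [List.mem_cons, not_or]
            exact ⟨fun h => hs h.symm, h2⟩
          · rw [val_cons, map_mul, ← mul_assoc, e1]; exact h3
          · rw [val_cons, map_mul, ← mul_assoc, e1]; exact h4

theorem exists_coc [DecidableEq X] [DecidableEq A] (pr : P B X →* G) (ρ : G →* A)
    (w : R → List (Letter B X)) (hw : ∀ r, pr (val (w r)) = 1)
    (hfree : FreeSides (ρ.comp pr) w) :
    ∀ (n : ℕ) (S : Finset (R × A)), S.card = n →
      ∃ C : Coc pr ρ, ∀ d ∈ S, C.c d.2 (val (w d.1)) = 1 := by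
  classical
  intro n
  induction n with
  | zero =>
    intro S hS
    refine ⟨Coc.triv pr ρ, fun d hd => ?_⟩
    rw [Finset.card_eq_zero.1 hS] at hd
    exact absurd hd (Finset.notMem_empty d)
  | succ n ih =>
    intro S hS
    have hne : S.Nonempty := by
      rw [← Finset.card_pos, hS]; exact Nat.succ_pos n
    obtain ⟨d, hd, s, hs1, hs2⟩ := hfree S hne
    obtain ⟨C₁, hC₁⟩ := ih (S.erase d) (by rw [Finset.card_erase_of_mem hd, hS]; rfl)
    obtain ⟨u, u', ε, h1, h2, h3, h4⟩ := split_once (ρ.comp pr) s (w d.1) d.2 hs1
    -- the value of the generator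
    have hrel : pr (val u) * pr (letval (Sum.inr (s.1, ε) : Letter B X)) * pr (val u') = 1 := by
      have := hw d.1
      rw [h1, val_append, val_cons, map_mul, map_mul, ← mul_assoc] at this
      exact this
    let sol : P B X := if ε then (val u)⁻¹ * (val u')⁻¹ else val u' * val u
    have hsol : pr sol = pr (gx B s.1) := by
      cases ε with
      | true =>
        have h5 : pr (val u) * pr (gx B s.1) * pr (val u') = 1 := hrel
        show pr ((val u)⁻¹ * (val u')⁻¹) = _
        rw [map_mul, map_inv, map_inv]
        rw [mul_eq_one_iff_eq_inv] at h5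
        rw [← h5, inv_mul_cancel_left]
      | false =>
        have h5 : pr (val u) * (pr (gx B s.1))⁻¹ * pr (val u') = 1 := by
          rw [← map_inv]; exact hrel
        show pr (val u' * val u) = _
        rw [map_mul]
        rw [mul_eq_one_iff_inv_eq, mul_inv_rev, inv_inv] at h5
        rw [← h5, inv_mul_cancel_right]
    obtain ⟨D, hD⟩ := exists_lift pr ρ
      (fun x a => if (x, a) = s then sol else gx B x) (by
        intro x a
        split_ifs with h
        · rw [hsol]
          have h1 : x = s.1 := congrArg Prod.fst h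
          rw [h1]
        · rfl)
    have hDne : ∀ x a, (x, a) ≠ s → D.c a (gx B x) = gx B x := by
      intro x a h
      rw [hD, if_neg h]
    have hDs : D.c s.2 (gx B s.1) = sol := by
      rw [hD, if_pos rfl]
    refine ⟨C₁.comp D, fun d' hd' => ?_⟩
    show C₁.c d'.2 (D.c d'.2 (val (w d'.1))) = 1
    by_cases hdd : d' = d
    · subst hdd
      have h5 : D.c d'.2 (val (w d'.1)) = 1 := by
        rw [h1, val_append, val_cons, D.mul, D.mul, coc_avoid D s hDne u d'.2 h2]
        have h6 : D.c (d'.2 * ρ (pr (val u)) * ρ (pr (letval (Sum.inr (s.1, ε) : Letter B X))))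
            (val u') = val u' := coc_avoid D s hDne u' _ h4
        rw [h6]
        cases ε with
        | true =>
          have h7 : d'.2 * ρ (pr (val u)) = s.2 := by
            have := h3
            simp only [if_true, mul_one] at this
            exact this
          rw [h7]
          show val u * (D.c s.2 (gx B s.1) * val u') = 1
          rw [hDs]
          show val u * ((val u)⁻¹ * (val u')⁻¹ * val u') = 1
          group
        | false =>
          have h7 : d'.2 * ρ (pr (val u)) * (ρ (pr (gx B s.1)))⁻¹ = s.2 := by
            have := h3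
            simp only [Bool.false_eq_true, if_false] at this
            exact this
          show val u * (D.c (d'.2 * ρ (pr (val u))) (gx B s.1)⁻¹ * val u') = 1
          rw [D.inv, h7, hDs]
          show val u * ((val u' * val u)⁻¹ * val u') = 1
          group
      rw [h5, C₁.one]
    · have h5 : D.c d'.2 (val (w d'.1)) = val (w d'.1) :=
        coc_avoid D s hDne _ _ (hs2 d' hd' hdd)
      rw [h5]
      exact hC₁ d' (Finset.mem_erase.2 ⟨hdd, hd'⟩)

end Pool.Agent.R15.OC
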