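import Pool.Agent.R15.OC.Cov

/-!
# Local indicability of the free product and of the quotient
-/

set_option autoImplicit false

namespace Pool.Agent.R15.OC

open Pool.Agent.TH625.LOG (LocInd surj_of_ne exists_finset_hom free_li shiftAut shiftAut_apply)

variable {B X R A G : Type} [Group B] [Group A] [Group G]

theorem exists_cells (pr : P B X →* G) (ρ : G →* A) (w : R → List (Letter B X))
    (hw : ∀ r, pr (val (w r)) = 1) (v : P B X)
    (hv : v ∈ Subgroup.normalClosure (Set.range fun r => val (w r))) :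
    ∀ a : A, ∃ S : Finset (R × A), ∀ C : Coc pr ρ, (∀ d ∈ S, C.c d.2 (val (w d.1)) = 1) →
      C.c a v = 1 := by
  classical
  have hv' : v ∈ Subgroup.closure (Group.conjugatesOfSet (Set.range fun r => val (w r))) := hv
  induction hv' using Subgroup.closure_induction with
  | mem x hx =>
    intro a
    obtain ⟨r, ⟨e, rfl⟩, hr⟩ := Group.mem_conjugatesOfSet_iff.1 hx
    obtain ⟨u, rfl⟩ := isConj_iff.1 hr
    refine ⟨{(e, a * ρ (pr u))}, fun C hC => ?_⟩
    have h1 := hC (e, a * ρ (pr u)) (Finset.mem_singleton_self _)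
    simp only at h1
    rw [C.mul, C.mul, h1, mul_one, map_mul, hw, mul_one, ← C.mul, mul_inv_cancel, C.one]
  | one => exact fun a => ⟨∅, fun C _ => C.one a⟩
  | mul x y hx hy ihx ihy =>
    intro a
    obtain ⟨S, hS⟩ := ihx hx a
    obtain ⟨T, hT⟩ := ihy hy (a * ρ (pr x))
    refine ⟨S ∪ T, fun C hC => ?_⟩
    rw [C.mul, hS C fun d hd => hC d (Finset.mem_union_left _ hd),
      hT C fun d hd => hC d (Finset.mem_union_right _ hd), one_mul]
  | inv x hx ihx =>
    intro a
    obtain ⟨S, hS⟩ := ihx hx (a * (ρ (pr x))⁻¹)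
    refine ⟨S, fun C hC => ?_⟩
    rw [C.inv, hS C hC, inv_one]

/-- the translation of the generators -/
def transMap (X : Type) (b : B) : FreeGroup (B × X) →* FreeGroup (B × X) :=
  FreeGroup.map fun p => (b * p.1, p.2)

theorem transMap_of (b : B) (p : B × X) :
    transMap X b (FreeGroup.of p) = FreeGroup.of (b * p.1, p.2) := FreeGroup.map.of

theorem transMap_mul (b b' : B) (x : FreeGroup (B × X)) :
    transMap X b (transMap X b' x) = transMap X (b * b') x := by
  have h : (transMap X b).comp (transMap X b') = transMap X (b * b') := by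
    ext p
    show transMap X b (transMap X b' (FreeGroup.of p)) = transMap X (b * b') (FreeGroup.of p)
    rw [transMap_of, transMap_of, transMap_of, mul_assoc]
  exact DFunLike.congr_fun h x

theorem transMap_one (x : FreeGroup (B × X)) : transMap X (1 : B) x = x := by
  have h : transMap X (1 : B) = MonoidHom.id _ := by
    ext p
    show transMap X (1 : B) (FreeGroup.of p) = FreeGroup.of p
    rw [transMap_of, one_mul]
  exact DFunLike.congr_fun h x

/-- the translation automorphisms of the free group on `B × X` -/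
def transAut (B X : Type) [Group B] : B →* MulAut (FreeGroup (B × X)) where
  toFun b :=
    { toFun := transMap X b
      invFun := transMap X b⁻¹
      left_inv := by
        intro x
        rw [transMap_mul, inv_mul_cancel, transMap_one]
      right_inv := by
        intro x
        rw [transMap_mul, mul_inv_cancel, transMap_one]
      map_mul' := fun x y => map_mul _ x y }
  map_one' := by
    apply MulEquiv.ext
    intro x
    exact transMap_one x
  map_mul' := by
    intro b b'
    apply MulEquiv.ext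
    intro x
    exact (transMap_mul b b' x).symm

theorem transAut_of (b : B) (p : B × X) :
    transAut B X b (FreeGroup.of p) = FreeGroup.of (b * p.1, p.2) := transMap_of b p

/-- the free product embeds into a semidirect product -/
theorem exists_emb (B X : Type) [Group B] :
    ∃ α : P B X →* FreeGroup (B × X) ⋊[transAut B X] B, Function.Injective α := by
  let α : P B X →* FreeGroup (B × X) ⋊[transAut B X] B :=
    Monoid.Coprod.lift SemidirectProduct.inr
      (FreeGroup.lift fun x => SemidirectProduct.inl (FreeGroup.of ((1 : B), x)))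
  let β₁ : FreeGroup (B × X) →* P B X :=
    FreeGroup.lift fun p => bb X p.1 * gx B p.2 * (bb X p.1)⁻¹
  let β : FreeGroup (B × X) ⋊[transAut B X] B →* P B X :=
    SemidirectProduct.lift β₁ Monoid.Coprod.inl (by
      intro b
      ext p
      show β₁ (transAut B X b (FreeGroup.of p)) = bb X b * β₁ (FreeGroup.of p) * (bb X b)⁻¹
      rw [transAut_of]
      have h1 : β₁ (FreeGroup.of (b * p.1, p.2)) =
        bb X (b * p.1) * gx B p.2 * (bb X (b * p.1))⁻¹ := FreeGroup.lift_apply_of
      have h2 : β₁ (FreeGroup.of p) = bb X p.1 * gx B p.2 * (bb X p.1)⁻¹ :=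
        FreeGroup.lift_apply_of
      have h3 : bb X (b * p.1) = bb X b * bb X p.1 := map_mul _ _ _
      rw [h1, h2, h3]
      group)
  have hβα : β.comp α = MonoidHom.id _ := by
    refine Monoid.Coprod.hom_ext ?_ ?_
    · ext b
      show β (α (Monoid.Coprod.inl b)) = Monoid.Coprod.inl b
      have h1 : α (Monoid.Coprod.inl b) = SemidirectProduct.inr b :=
        Monoid.Coprod.lift_apply_inl _ _ _
      rw [h1]
      exact SemidirectProduct.lift_inr _ _ _ _
    · ext x
      show β (α (Monoid.Coprod.inr (FreeGroup.of x))) = Monoid.Coprod.inr (FreeGroup.of x)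
      have h1 : α (Monoid.Coprod.inr (FreeGroup.of x)) =
          SemidirectProduct.inl (FreeGroup.of ((1 : B), x)) := by
        show Monoid.Coprod.lift _ _ (Monoid.Coprod.inr (FreeGroup.of x)) = _
        rw [Monoid.Coprod.lift_apply_inr, FreeGroup.lift_apply_of]
      rw [h1]
      have h2 : β (SemidirectProduct.inl (FreeGroup.of ((1 : B), x))) =
          β₁ (FreeGroup.of ((1 : B), x)) := SemidirectProduct.lift_inl _ _ _ _
      have h3 : β₁ (FreeGroup.of ((1 : B), x)) = bb X (1 : B) * gx B x * (bb X (1 : B))⁻¹ :=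
        FreeGroup.lift_apply_of
      have h4 : bb X (1 : B) = 1 := map_one _
      rw [h2, h3, h4]
      simp
  refine ⟨α, ?_⟩
  intro x y hxy
  have h1 := DFunLike.congr_fun hβα x
  have h2 := DFunLike.congr_fun hβα y
  have h3 : β (α x) = x := h1
  have h4 : β (α y) = y := h2
  rw [← h3, ← h4, hxy]

/-- the free product of a locally indicable group with a free group is locally indicable -/
theorem locInd_P (hB : LocInd B) : LocInd (P B X) := by
  obtain ⟨α, hα⟩ := exists_emb B X
  refine LocInd.ext hB (SemidirectProduct.rightHom.comp α) ?_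
  intro H hH hne hk
  -- the restriction to `H` has values in the free normal subgroup
  let γ : H →* FreeGroup (B × X) :=
    MonoidHom.mk' (fun h => (α h.1).left) (by
      intro x y
      have hx : (α x.1).right = 1 := MonoidHom.mem_ker.1 (hk x.2)
      show (α (x.1 * y.1)).left = _
      rw [map_mul, SemidirectProduct.mul_left, hx, map_one]
      rfl)
  have hγ : Function.Injective γ := by
    intro x y hxy
    have hx : (α x.1).right = 1 := MonoidHom.mem_ker.1 (hk x.2)
    have hy : (α y.1).right = 1 := MonoidHom.mem_ker.1 (hk y.2)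
    have h1 : (α x.1).left = (α y.1).left := hxy
    have h2 : α x.1 = α y.1 := SemidirectProduct.ext h1 (by rw [hx, hy])
    exact Subtype.ext (hα h2)
  have hJ : γ.range ≠ ⊥ := by
    intro h0
    apply hne
    rw [Subgroup.eq_bot_iff_forall]
    intro x hx
    have h1 : γ ⟨x, hx⟩ ∈ γ.range := ⟨_, rfl⟩
    rw [h0, Subgroup.mem_bot] at h1
    have h2 : γ ⟨x, hx⟩ = γ 1 := by rw [h1, map_one]
    exact congrArg Subtype.val (hγ h2)
  obtain ⟨ψ, ⟨_, y, rfl⟩, hy⟩ := free_li γ.range hJ
  exact ⟨ψ.comp γ.rangeRestrict, y, hy⟩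

theorem ker_li [DecidableEq X] [DecidableEq A] (hB : LocInd B) (pr : P B X →* G)
    (hpr : Function.Surjective pr) (ρ : G →* A) (w : R → List (Letter B X))
    (hker : pr.ker = Subgroup.normalClosure (Set.range fun r => val (w r)))
    (hfree : FreeSides (ρ.comp pr) w) (H : Subgroup G)
    (hH : H.FG) (hk : H ≤ ρ.ker) (hne : H ≠ ⊥) :
    ∃ ψ : H →* Multiplicative ℤ, ∃ x, ψ x ≠ 1 := by
  classical
  by_contra hcon
  push Not at hcon
  have hw : ∀ r, pr (val (w r)) = 1 := by
    intro r
    rw [← MonoidHom.mem_ker, hker]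
    exact Subgroup.subset_normalClosure ⟨r, rfl⟩
  have : Group.FG H := (Group.fg_iff_subgroup_fg H).2 hH
  obtain ⟨α, hα, Φ, hΦ⟩ := Group.fg_iff_exists_freeGroup_hom_surjective_finite.1 this
  choose lft hlft using hpr
  let Q : FreeGroup α →* P B X := FreeGroup.lift fun i => lft (Φ (FreeGroup.of i))
  have hQ : ∀ x, pr (Q x) = Φ x := by
    intro x
    have h : pr.comp Q = H.subtype.comp Φ := by
      ext i
      show pr (Q (FreeGroup.of i)) = Φ (FreeGroup.of i)
      have h2 : Q (FreeGroup.of i) = lft (Φ (FreeGroup.of i)) := FreeGroup.lift_apply_of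
      rw [h2, hlft]
    exact DFunLike.congr_fun h x
  obtain ⟨T, hTK, hT⟩ := exists_finset_hom Φ.ker
  have hcells : ∀ x ∈ T, ∃ S : Finset (R × A), ∀ C : Coc pr ρ,
      (∀ d ∈ S, C.c d.2 (val (w d.1)) = 1) → C.c 1 (Q x) = 1 := by
    intro x hx
    refine exists_cells pr ρ w hw (Q x) ?_ 1
    rw [← hker, MonoidHom.mem_ker, hQ, (MonoidHom.mem_ker).1 (hTK x hx)]
    rfl
  choose! S hS using hcells
  obtain ⟨C, hC⟩ := exists_coc pr ρ w hw hfree _ (T.biUnion S) rfl
  have hρQ : ∀ x, ρ (pr (Q x)) = 1 := by
    intro x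
    rw [hQ]
    exact MonoidHom.mem_ker.1 (hk (Φ x).2)
  let Θ : FreeGroup α →* P B X :=
    MonoidHom.mk' (fun x => C.c 1 (Q x)) (by
      intro x y
      show C.c 1 (Q (x * y)) = C.c 1 (Q x) * C.c 1 (Q y)
      rw [map_mul, C.mul, hρQ, mul_one])
  have hΘT : ∀ x ∈ T, Θ x = 1 := by
    intro x hx
    exact hS x hx C fun d hd => hC d (Finset.mem_biUnion.2 ⟨x, hx, hd⟩)
  have hJ : Θ.range = ⊥ := by
    by_contra hJ
    have hfg : Θ.range.FG := (Group.fg_iff_subgroup_fg _).1
      (Group.fg_of_surjective Θ.rangeRestrict_surjective)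
    obtain ⟨ψ, hψ⟩ := locInd_P (X := X) hB Θ.range hfg hJ
    obtain ⟨⟨_, y, rfl⟩, hy⟩ := hψ (Multiplicative.ofAdd (1 : ℤ))
    have hy1 : ψ ⟨Θ y, y, rfl⟩ ≠ 1 := by
      rw [hy]
      intro h
      have h2 : (1 : ℤ) = 0 := h
      exact one_ne_zero h2
    apply hy1
    let φ : FreeGroup α →* Multiplicative ℤ := ψ.comp Θ.rangeRestrict
    have hφ : ∀ x ∈ Φ.ker, φ x = 1 := by
      apply hT φ
      intro x hx
      show ψ (Θ.rangeRestrict x) = 1
      have h1 : Θ.rangeRestrict x = 1 := Subtype.ext (hΘT x hx)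
      rw [h1, map_one]
    let f : H →* Multiplicative ℤ :=
      Φ.liftOfRightInverse (Function.surjInv hΦ) (Function.rightInverse_surjInv hΦ)
        ⟨φ, fun x hx => MonoidHom.mem_ker.2 (hφ x hx)⟩
    have hf : ∀ x, f (Φ x) = φ x := fun x =>
      Φ.liftOfRightInverse_comp_apply (Function.surjInv hΦ) (Function.rightInverse_surjInv hΦ) _ x
    have h2 := hcon f (Φ y)
    rw [hf] at h2
    exact h2
  apply hne
  rw [Subgroup.eq_bot_iff_forall]
  intro h hh
  obtain ⟨x, hx⟩ := hΦ ⟨h, hh⟩
  have h1 : Θ x = 1 := by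
    have h2 : Θ x ∈ Θ.range := ⟨x, rfl⟩
    rw [hJ] at h2
    exact Subgroup.mem_bot.1 h2
  have h3 : pr (Q x) = 1 := by
    rw [← C.pr_c 1 (Q x)]
    have h4 : C.c 1 (Q x) = 1 := h1
    rw [h4, map_one]
  rw [hQ, hx] at h3
  exact h3

/-- The relative theorem: local indicability passes up. -/
theorem main_li [DecidableEq X] [DecidableEq A] (hB : LocInd B) (hA : LocInd A) (pr : P B X →* G)
    (hpr : Function.Surjective pr) (ρ : G →* A) (w : R → List (Letter B X))
    (hker : pr.ker = Subgroup.normalClosure (Set.range fun r => val (w r)))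
    (hfree : FreeSides (ρ.comp pr) w) : LocInd G :=
  LocInd.ext hA ρ fun H hH hne hk => ker_li hB pr hpr ρ w hker hfree H hH hk hne

/-- The Freiheitssatz. -/
theorem main_inj [DecidableEq X] [DecidableEq A] (pr : P B X →* G) (ρ : G →* A)
    (w : R → List (Letter B X))
    (hker : pr.ker = Subgroup.normalClosure (Set.range fun r => val (w r)))
    (hfree : FreeSides (ρ.comp pr) w) :
    Function.Injective (pr.comp (Monoid.Coprod.inl : B →* P B X)) := by
  classical
  have hw : ∀ r, pr (val (w r)) = 1 := by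
    intro r
    rw [← MonoidHom.mem_ker, hker]
    exact Subgroup.subset_normalClosure ⟨r, rfl⟩
  rw [injective_iff_map_eq_one]
  intro b hb
  have h1 : bb X b ∈ Subgroup.normalClosure (Set.range fun r => val (w r)) := by
    rw [← hker, MonoidHom.mem_ker]
    exact hb
  obtain ⟨S, hS⟩ := exists_cells pr ρ w hw _ h1 1
  obtain ⟨C, hC⟩ := exists_coc pr ρ w hw hfree _ S rfl
  have h2 := hS C hC
  rw [C.base] at h2
  have h3 : (Monoid.Coprod.inl b : P B X) = Monoid.Coprod.inl 1 := by rw [map_one]; exact h2
  exact Monoid.Coprod.inl_injective h3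

end Pool.Agent.R15.OC
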