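import Pool.Agent.R15.OC.Test

/-!
# The relative theorem for a pair of complexes
-/

set_option autoImplicit false

namespace Pool.Agent.R15.OC

open Pool.Agent.TH625.LOG (LocInd)

variable {X R A : Type} [Group A]

theorem locInd_BY (att : R → List (X × Bool)) (Y : Set X) (Q₀ : Set R)
    (hQ₀ : ∀ r ∈ Q₀, ∀ p ∈ att r, p.1 ∈ Y)
    (h : LocInd (SubGrp att Y Q₀)) : LocInd (BY att Y Q₀) := by
  classical
  let k : Grp att Q₀ →* SubGrp att Y Q₀ :=
    PresentedGroup.toGroup (f := fun x => (PresentedGroup.of x : SubGrp att Y Q₀)) (by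
      rintro _ ⟨r, hr, rfl⟩
      have h1 : FreeGroup.lift (fun x => (PresentedGroup.of x : SubGrp att Y Q₀)) =
          PresentedGroup.mk _ := by
        ext x
        rw [FreeGroup.lift_apply_of]
        rfl
      rw [h1]
      exact PresentedGroup.one_of_mem (Or.inl ⟨r, hr, rfl⟩))
  have hk : ∀ v : FreeGroup X, k (PresentedGroup.mk _ v) = PresentedGroup.mk _ v := by
    intro v
    have h1 : k.comp (PresentedGroup.mk _) = PresentedGroup.mk _ := by
      ext x
      show k (PresentedGroup.of x) = PresentedGroup.of x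
      exact PresentedGroup.toGroup.of _
    exact DFunLike.congr_fun h1 v
  refine locInd_of_inj h (k.comp (BY att Y Q₀).subtype) ?_
  rw [injective_iff_map_eq_one]
  rintro ⟨b, hb⟩ hb1
  have h1 : BY att Y Q₀ = (Subgroup.closure (FreeGroup.of '' Y)).map
      (PresentedGroup.mk _) := by
    rw [MonoidHom.map_closure, ← Set.image_comp]
    rfl
  rw [h1] at hb
  obtain ⟨v, hv, hv'⟩ := hb
  -- `v` is in the normal closure of the relators and of the generators outside `Y`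
  have h2 : (PresentedGroup.mk _ v : SubGrp att Y Q₀) = 1 := by
    rw [← hk, hv']
    exact hb1
  rw [PresentedGroup.mk_eq_one_iff] at h2
  -- the retraction which kills the generators outside `Y`
  let e : FreeGroup X →* Grp att Q₀ :=
    FreeGroup.lift fun x => if x ∈ Y then PresentedGroup.of x else 1
  have he : ∀ v ∈ Subgroup.closure (FreeGroup.of '' Y), e v = PresentedGroup.mk _ v := by
    intro v hv
    refine MonoidHom.eqOn_closure (f := e)
      (g := PresentedGroup.mk ((fun r => FreeGroup.mk (att r)) '' Q₀)) ?_ hv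
    rintro _ ⟨x, hx, rfl⟩
    show FreeGroup.lift _ (FreeGroup.of x) = _
    rw [FreeGroup.lift_apply_of, if_pos hx]
    rfl
  have h3 : Subgroup.normalClosure
      ((fun r => FreeGroup.mk (att r)) '' Q₀ ∪ FreeGroup.of '' Yᶜ) ≤ e.ker := by
    refine Subgroup.normalClosure_le_normal ?_
    rintro _ (⟨r, hr, rfl⟩ | ⟨x, hx, rfl⟩)
    · show FreeGroup.mk (att r) ∈ e.ker
      rw [MonoidHom.mem_ker, he _ (mk_mem Y _ (hQ₀ r hr))]
      exact PresentedGroup.one_of_mem ⟨r, hr, rfl⟩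
    · show FreeGroup.of x ∈ e.ker
      rw [MonoidHom.mem_ker]
      show FreeGroup.lift _ (FreeGroup.of x) = _
      rw [FreeGroup.lift_apply_of]
      exact if_neg hx
  have h4 : e v = 1 := MonoidHom.mem_ker.1 (h3 h2)
  rw [he v hv, hv'] at h4
  exact Subtype.ext h4

/-- The relative theorem. -/
theorem rel_li (att : R → List (X × Bool)) (Y : Set X) (Q₀ Q₁ : Set R)
    (hQ₀ : ∀ r ∈ Q₀, ∀ p ∈ att r, p.1 ∈ Y) (h₀ : LocInd (SubGrp att Y Q₀)) (hA : LocInd A)
    (ρ : FreeGroup X →* A) (hρ : ∀ r ∈ Q₀ ∪ Q₁, ρ (FreeGroup.mk (att r)) = 1)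
    (hfree : FreeSidesRel ρ att Y Q₁) (Y' : Set X) (hY : Y ⊆ Y')
    (hQ₁ : ∀ r ∈ Q₁, ∀ p ∈ att r, p.1 ∈ Y') : LocInd (SubGrp att Y' (Q₀ ∪ Q₁)) := by
  classical
  refine subGrp_li att Y' (Q₀ ∪ Q₁) ?_ ?_
  · rintro r (hr | hr) p hp
    · exact hY (hQ₀ r hr p hp)
    · exact hQ₁ r hr p hp
  · refine main_li (locInd_BY att Y Q₀ hQ₀ h₀) hA
      (prY att Y Q₀ Q₁) (prY_surj att Y Q₀ Q₁) (rhoG att ρ _ hρ) (wd att Y Q₀ Q₁)
      (prY_ker att Y Q₀ Q₁ hQ₀) ?_
    refine freeSides_of_rel att Y Q₀ Q₁ ρ _ ?_ hfree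
    intro v
    show rhoG att ρ _ hρ (prY att Y Q₀ Q₁ (theta att Y Q₀ v)) = ρ v
    rw [prY_theta, rhoG_mk]

end Pool.Agent.R15.OC
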