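import Pool.Agent.R15.OC.Step

/-!
# Towers of free side tests
-/

set_option autoImplicit false

namespace Pool.Agent.R15.OC

open Pool.Agent.TH625.LOG (LocInd surj_of_ne exists_finset_hom free_li)

variable {X R A : Type} [Group A]

open Classical in
/-- The 2-cells `(r, a)`, `r ∈ Q₁`, of the covering belonging to `ρ`: every nonempty finite set of
them has a free side belonging to a 1-cell outside `Y`: a 1-cell `s` of the covering through which
the boundary path of one of the 2-cells passes exactly once and the boundary paths of the others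
do not pass. -/
def FreeSidesRel (ρ : FreeGroup X →* A) (att : R → List (X × Bool)) (Y : Set X) (Q₁ : Set R) :
    Prop :=
  ∀ S : Finset (R × A), S.Nonempty → (∀ d ∈ S, d.1 ∈ Q₁) →
    ∃ d ∈ S, ∃ s : X × A, s.1 ∉ Y ∧ (occ ρ d.2 (att d.1)).count s = 1 ∧
      ∀ d' ∈ S, d' ≠ d → s ∉ occ ρ d'.2 (att d'.1)

theorem count_bi {α : Type} (i₁ i₂ : BEq α) (h₁ : @LawfulBEq α i₁) (h₂ : @LawfulBEq α i₂)
    (s : α) (l : List α) : @List.count α i₁ s l = @List.count α i₂ s l := by
  have h : i₁ = i₂ := by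
    cases i₁ with
    | mk b₁ =>
      cases i₂ with
      | mk b₂ =>
        congr 1
        funext x y
        have e₁ : b₁ x y = true ↔ x = y :=
          ⟨fun h => h₁.eq_of_beq h, fun h => h ▸ h₁.toReflBEq.rfl⟩
        have e₂ : b₂ x y = true ↔ x = y :=
          ⟨fun h => h₂.eq_of_beq h, fun h => h ▸ h₂.toReflBEq.rfl⟩
        exact Bool.eq_iff_iff.2 (e₁.trans e₂.symm)
  subst h
  rfl

theorem mk_false (x : X) : FreeGroup.mk [(x, false)] = (FreeGroup.of x)⁻¹ := by
  show _ = (FreeGroup.mk [(x, true)])⁻¹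
  rw [FreeGroup.inv_mk]
  rfl

section Step

variable (att : R → List (X × Bool)) (Y : Set X) (Q₀ Q₁ : Set R)

theorem count_edg [DecidableEq X] [DecidableEq A] (ρ : FreeGroup X →* A)
    (σ : P (BY att Y Q₀) {x // x ∉ Y} →* A)
    (hσ : ∀ v, σ (theta att Y Q₀ v) = ρ v) (x : X) (hx : x ∉ Y) (u : A) :
    ∀ (l : List (X × Bool)) (a : A),
      (edg σ a (l.map (toL att Y Q₀))).count ((⟨x, hx⟩ : {x // x ∉ Y}), u) =
        (occ ρ a l).count (x, u) := by
  intro l
  induction l with
  | nil => intro a; simp [edg, occ]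
  | cons p l ih =>
    intro a
    obtain ⟨y, ε⟩ := p
    have h1 : σ (letval (toL att Y Q₀ (y, ε))) = ρ (FreeGroup.mk [(y, ε)]) := by
      rw [letval_toL, hσ]
    rw [List.map_cons]
    by_cases hy : y ∈ Y
    · obtain ⟨b, hb⟩ : ∃ b, toL att Y Q₀ (y, ε) = Sum.inl b :=
        ⟨_, by unfold toL; rw [dif_pos hy]⟩
      rw [hb] at h1 ⊢
      have h2 : σ (bb _ b) = ρ (FreeGroup.mk [(y, ε)]) := h1
      have hyx : y ≠ x := fun h => hx (h ▸ hy)
      show (edg σ (a * σ (bb _ b)) _).count _ = _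
      rw [ih, h2]
      cases ε with
      | true =>
        show _ = ((y, a) :: occ ρ (a * ρ (FreeGroup.of y)) l).count (x, u)
        rw [List.count_cons_of_ne (fun h => hyx (congrArg Prod.fst h))]
        rfl
      | false =>
        show _ = ((y, a * (ρ (FreeGroup.of y))⁻¹) ::
          occ ρ (a * (ρ (FreeGroup.of y))⁻¹) l).count (x, u)
        rw [List.count_cons_of_ne (fun h => hyx (congrArg Prod.fst h)), mk_false, map_inv]
    · have hb : toL att Y Q₀ (y, ε) = Sum.inr (⟨y, hy⟩, ε) := by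
        unfold toL; rw [dif_neg hy]
      rw [hb] at h1 ⊢
      have hiff : ∀ c : A, (((⟨y, hy⟩ : {x // x ∉ Y}), c) = ((⟨x, hx⟩ : {x // x ∉ Y}), u)) ↔
          ((y, c) = (x, u)) := by
        intro c
        constructor
        · intro h
          have h3 := congrArg Prod.fst h
          have h4 : y = x := congrArg Subtype.val h3
          have h5 : c = u := congrArg Prod.snd h
          rw [h4, h5]
        · intro h
          have h4 : y = x := congrArg Prod.fst h
          have h5 : c = u := congrArg Prod.snd h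
          subst h4
          rw [h5]
      cases ε with
      | true =>
        have h2 : σ (gx _ ⟨y, hy⟩) = ρ (FreeGroup.of y) := h1
        show (((⟨y, hy⟩ : {x // x ∉ Y}), a) :: edg σ (a * σ (gx _ ⟨y, hy⟩)) _).count _ =
          ((y, a) :: occ ρ (a * ρ (FreeGroup.of y)) l).count (x, u)
        by_cases hc : (y, a) = (x, u)
        · have hc' := (hiff a).2 hc
          rw [hc', hc, List.count_cons_self, List.count_cons_self, ih, h2]
        · have hc' := fun h => hc ((hiff a).1 h)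
          rw [List.count_cons_of_ne hc', List.count_cons_of_ne hc, ih, h2]
      | false =>
        have h2 : (σ (gx _ ⟨y, hy⟩))⁻¹ = (ρ (FreeGroup.of y))⁻¹ := by
          have h3 : σ (gx _ ⟨y, hy⟩)⁻¹ = ρ (FreeGroup.mk [(y, false)]) := h1
          rw [mk_false, map_inv, map_inv] at h3
          exact h3
        show (((⟨y, hy⟩ : {x // x ∉ Y}), a * (σ (gx _ ⟨y, hy⟩))⁻¹) ::
            edg σ (a * (σ (gx _ ⟨y, hy⟩))⁻¹) _).count _ =
          ((y, a * (ρ (FreeGroup.of y))⁻¹) :: occ ρ (a * (ρ (FreeGroup.of y))⁻¹) l).count (x, u)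
        rw [h2]
        by_cases hc : (y, a * (ρ (FreeGroup.of y))⁻¹) = (x, u)
        · have hc' := (hiff (a * (ρ (FreeGroup.of y))⁻¹)).2 hc
          rw [hc', hc, List.count_cons_self, List.count_cons_self, ih]
        · have hc' := fun h => hc ((hiff (a * (ρ (FreeGroup.of y))⁻¹)).1 h)
          rw [List.count_cons_of_ne hc', List.count_cons_of_ne hc, ih]

theorem freeSides_of_rel [DecidableEq X] [DecidableEq A] (ρ : FreeGroup X →* A)
    (σ : P (BY att Y Q₀) {x // x ∉ Y} →* A)
    (hσ : ∀ v, σ (theta att Y Q₀ v) = ρ v) (h : FreeSidesRel ρ att Y Q₁) :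
    FreeSides σ (wd att Y Q₀ Q₁) := by
  classical
  intro S hS
  obtain ⟨d', hd', s, hs1, hs2, hs3⟩ := h (S.image fun d => (d.1.1, d.2)) (hS.image _) (by
    intro d hd
    obtain ⟨e, -, rfl⟩ := Finset.mem_image.1 hd
    exact e.1.2)
  obtain ⟨d, hd, rfl⟩ := Finset.mem_image.1 hd'
  refine ⟨d, hd, (⟨s.1, hs1⟩, s.2), ?_, ?_⟩
  · have h1 := count_edg att Y Q₀ ρ σ hσ s.1 hs1 s.2 (att d.1.1) d.2
    have h2 : (edg σ d.2 ((att d.1.1).map (toL att Y Q₀))).count
        ((⟨s.1, hs1⟩ : {x // x ∉ Y}), s.2) = 1 := by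
      rw [h1]
      exact (count_bi _ _ inferInstance inferInstance _ _).trans hs2
    unfold wd
    exact (count_bi _ _ inferInstance inferInstance _ _).trans h2
  · intro e he hne hmem
    have h1 := count_edg att Y Q₀ ρ σ hσ s.1 hs1 s.2 (att e.1.1) e.2
    have h2 : s ∉ occ ρ e.2 (att e.1.1) := by
      refine hs3 (e.1.1, e.2) (Finset.mem_image.2 ⟨e, he, rfl⟩) ?_
      intro h3
      apply hne
      have h3' : (e.1.1, e.2) = (d.1.1, d.2) := h3
      have h4 : e.1.1 = d.1.1 := (Prod.mk.inj h3').1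
      have h5 : e.2 = d.2 := (Prod.mk.inj h3').2
      exact Prod.ext (Subtype.ext h4) h5
    have h3 : (occ ρ e.2 (att e.1.1)).count (s.1, s.2) = 0 := List.count_eq_zero.2 h2
    rw [h3] at h1
    exact List.count_eq_zero.1 h1 hmem

/-- the map from the group of the complex -/
noncomputable def rhoG (ρ : FreeGroup X →* A) (Q : Set R)
    (hρ : ∀ r ∈ Q, ρ (FreeGroup.mk (att r)) = 1) : Grp att Q →* A :=
  PresentedGroup.toGroup (f := fun x => ρ (FreeGroup.of x)) (by
    rintro _ ⟨r, hr, rfl⟩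
    have h1 : FreeGroup.lift (fun x => ρ (FreeGroup.of x)) = ρ := by
      ext x
      rw [FreeGroup.lift_apply_of]
    rw [h1]
    exact hρ r hr)

theorem rhoG_mk (ρ : FreeGroup X →* A) (Q : Set R)
    (hρ : ∀ r ∈ Q, ρ (FreeGroup.mk (att r)) = 1) (v : FreeGroup X) :
    rhoG att ρ Q hρ (PresentedGroup.mk _ v) = ρ v := by
  have h1 : (rhoG att ρ Q hρ).comp (PresentedGroup.mk _) = ρ := by
    ext x
    show rhoG att ρ Q hρ (PresentedGroup.of x) = ρ (FreeGroup.of x)
    exact PresentedGroup.toGroup.of _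
  exact DFunLike.congr_fun h1 v

theorem step_li (hQ₀ : ∀ r ∈ Q₀, ∀ p ∈ att r, p.1 ∈ Y) (h₀ : LocInd (Grp att Q₀)) (hA : LocInd A)
    (ρ : FreeGroup X →* A) (hρ : ∀ r ∈ Q₀ ∪ Q₁, ρ (FreeGroup.mk (att r)) = 1)
    (hfree : FreeSidesRel ρ att Y Q₁) : LocInd (Grp att (Q₀ ∪ Q₁)) := by
  classical
  refine main_li (locInd_of_inj h₀ (BY att Y Q₀).subtype Subtype.val_injective) hA
    (prY att Y Q₀ Q₁) (prY_surj att Y Q₀ Q₁) (rhoG att ρ _ hρ) (wd att Y Q₀ Q₁)
    (prY_ker att Y Q₀ Q₁ hQ₀) ?_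
  refine freeSides_of_rel att Y Q₀ Q₁ ρ _ ?_ hfree
  intro v
  show rhoG att ρ _ hρ (prY att Y Q₀ Q₁ (theta att Y Q₀ v)) = ρ v
  rw [prY_theta, rhoG_mk]

theorem step_inj (hQ₀ : ∀ r ∈ Q₀, ∀ p ∈ att r, p.1 ∈ Y)
    (ρ : FreeGroup X →* A) (hρ : ∀ r ∈ Q₀ ∪ Q₁, ρ (FreeGroup.mk (att r)) = 1)
    (hfree : FreeSidesRel ρ att Y Q₁) (v : FreeGroup X)
    (hv : v ∈ Subgroup.closure (FreeGroup.of '' Y))
    (hv' : v ∈ Subgroup.normalClosure ((fun r => FreeGroup.mk (att r)) '' (Q₀ ∪ Q₁))) :
    v ∈ Subgroup.normalClosure ((fun r => FreeGroup.mk (att r)) '' Q₀) := by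
  classical
  obtain ⟨b, hb, hb'⟩ := theta_Y att Y Q₀ v hv
  have hinj := main_inj (prY att Y Q₀ Q₁) (rhoG att ρ _ hρ) (wd att Y Q₀ Q₁)
    (prY_ker att Y Q₀ Q₁ hQ₀) (freeSides_of_rel att Y Q₀ Q₁ ρ _ (by
      intro v
      show rhoG att ρ _ hρ (prY att Y Q₀ Q₁ (theta att Y Q₀ v)) = ρ v
      rw [prY_theta, rhoG_mk]) hfree)
  have h1 : b = 1 := by
    apply hinj
    rw [map_one]
    show prY att Y Q₀ Q₁ (bb _ b) = 1
    rw [← hb', prY_theta, PresentedGroup.mk_eq_one_iff]
    exact hv'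
  rw [← PresentedGroup.mk_eq_one_iff, ← hb, h1]
  rfl

end Step

section Tower

variable {ι : Type} [LinearOrder ι]

/-- The stage `α`: for a homomorphism `ρ` from the group of the stages up to `α` to a locally
indicable group the new 2-cells satisfy the free side condition relative to the old 1-cells. -/
def Stage (att : R → List (X × Bool)) (hX : X → ι) (hR : R → ι) (α : ι) : Prop :=
  ∃ (A : Type) (_ : Group A) (ρ : FreeGroup X →* A), LocInd A ∧
    (∀ r, hR r ≤ α → ρ (FreeGroup.mk (att r)) = 1) ∧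
      FreeSidesRel ρ att {x | hX x < α} {r | hR r = α}

theorem FreeSidesRel.mono {ρ : FreeGroup X →* A} {att : R → List (X × Bool)} {Y : Set X}
    {Q Q' : Set R} (h : FreeSidesRel ρ att Y Q) (hQ : Q' ⊆ Q) : FreeSidesRel ρ att Y Q' :=
  fun S hS hS' => h S hS fun d hd => hQ (hS' d hd)

theorem split_stage (hR : R → ι) (Q : Set R) (α : ι) :
    Q ∩ {r | hR r ≤ α} = (Q ∩ {r | hR r < α}) ∪ (Q ∩ {r | hR r = α}) := by
  ext r
  constructor
  · rintro ⟨h1, h2⟩
    rcases lt_or_eq_of_le h2 with h | h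
    · exact Or.inl ⟨h1, h⟩
    · exact Or.inr ⟨h1, h⟩
  · rintro (⟨h1, h2⟩ | ⟨h1, h2⟩)
    · exact ⟨h1, le_of_lt h2⟩
    · exact ⟨h1, le_of_eq h2⟩

theorem tower_le [WellFoundedLT ι] (att : R → List (X × Bool)) (hX : X → ι) (hR : R → ι)
    (hle : ∀ r, ∀ p ∈ att r, hX p.1 ≤ hR r) (hst : ∀ α, Stage att hX hR α) (Q : Set R) (α : ι) :
    LocInd (Grp att (Q ∩ {r | hR r ≤ α})) := by
  classical
  induction α using WellFoundedLT.induction with
  | ind α ih =>
    have h0 : LocInd (Grp att (Q ∩ {r | hR r < α})) := by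
      apply limit_li
      intro F hF
      rcases F.eq_empty_or_nonempty with rfl | hne
      · exact ⟨∅, fun r hr => absurd hr (Finset.notMem_empty r), Set.empty_subset _,
          locInd_empty att⟩
      · obtain ⟨m, hm, hmax⟩ := F.exists_max_image hR hne
        have hmα : hR m < α := (hF m hm).2
        refine ⟨Q ∩ {r | hR r ≤ hR m}, fun r hr => ⟨(hF r hr).1, hmax r hr⟩, ?_, ih _ hmα⟩
        rintro r ⟨h1, h2⟩
        exact ⟨h1, lt_of_le_of_lt h2 hmα⟩
    obtain ⟨A, iA, ρ, hA, hρ, hfree⟩ := hst α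
    rw [split_stage]
    refine step_li att {x | hX x < α} (Q ∩ {r | hR r < α}) (Q ∩ {r | hR r = α}) ?_ h0 hA ρ ?_
      (hfree.mono Set.inter_subset_right)
    · rintro r ⟨-, hr⟩ p hp
      exact lt_of_le_of_lt (hle r p hp) hr
    · intro r hr
      rw [← split_stage] at hr
      exact hρ r hr.2

/-- The tower theorem. -/
theorem tower_li [WellFoundedLT ι] (att : R → List (X × Bool)) (hX : X → ι) (hR : R → ι)
    (hle : ∀ r, ∀ p ∈ att r, hX p.1 ≤ hR r) (hst : ∀ α, Stage att hX hR α) (Q : Set R) :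
    LocInd (Grp att Q) := by
  classical
  apply limit_li
  intro F hF
  rcases F.eq_empty_or_nonempty with rfl | hne
  · exact ⟨∅, fun r hr => absurd hr (Finset.notMem_empty r), Set.empty_subset _,
      locInd_empty att⟩
  · obtain ⟨m, hm, hmax⟩ := F.exists_max_image hR hne
    exact ⟨Q ∩ {r | hR r ≤ hR m}, fun r hr => ⟨hF r hr, hmax r hr⟩, Set.inter_subset_left,
      tower_le att hX hR hle hst Q _⟩

/-- The Freiheitssatz for towers. -/
theorem tower_frei [WellFoundedLT ι] (att : R → List (X × Bool)) (hX : X → ι) (hR : R → ι)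
    (hle : ∀ r, ∀ p ∈ att r, hX p.1 ≤ hR r) (hst : ∀ α, Stage att hX hR α) (Q : Set R) (α : ι)
    (v : FreeGroup X) (hv : v ∈ Subgroup.closure (FreeGroup.of '' {x | hX x ≤ α}))
    (hv' : v ∈ Subgroup.normalClosure ((fun r => FreeGroup.mk (att r)) '' Q)) :
    v ∈ Subgroup.normalClosure ((fun r => FreeGroup.mk (att r)) '' (Q ∩ {r | hR r ≤ α})) := by
  classical
  have key : ∀ β, α ≤ β →
      v ∈ Subgroup.normalClosure ((fun r => FreeGroup.mk (att r)) '' (Q ∩ {r | hR r ≤ β})) →
      v ∈ Subgroup.normalClosure ((fun r => FreeGroup.mk (att r)) '' (Q ∩ {r | hR r ≤ α})) := by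
    intro β
    induction β using WellFoundedLT.induction with
    | ind β ih =>
      intro hαβ h
      rcases eq_or_lt_of_le hαβ with h1 | h1
      · rw [h1]; exact h
      · obtain ⟨A, iA, ρ, hA, hρ, hfree⟩ := hst β
        have h2 := step_inj att {x | hX x < β} (Q ∩ {r | hR r < β}) (Q ∩ {r | hR r = β})
          (by
            rintro r ⟨-, hr⟩ p hp
            exact lt_of_le_of_lt (hle r p hp) hr) ρ
          (by
            intro r hr
            rw [← split_stage] at hr
            exact hρ r hr.2)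
          (hfree.mono Set.inter_subset_right) v
          (Subgroup.closure_mono (Set.image_mono fun x hx => lt_of_le_of_lt hx h1) hv)
          (by rw [← split_stage]; exact h)
        obtain ⟨T, hT, hT'⟩ := fin_normal _ _ v h2
        rcases T.eq_empty_or_nonempty with rfl | hne
        · refine Subgroup.normalClosure_mono (Set.image_mono ?_) hT'
          intro r hr
          exact absurd hr (Finset.notMem_empty r)
        · obtain ⟨m, hm, hmax⟩ := T.exists_max_image hR hne
          have hmβ : hR m < β := (hT m hm).2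
          refine ih (max α (hR m)) (max_lt h1 hmβ) (le_max_left _ _) ?_
          refine Subgroup.normalClosure_mono (Set.image_mono ?_) hT'
          intro r hr
          exact ⟨(hT r hr).1, le_trans (hmax r hr) (le_max_right _ _)⟩
  obtain ⟨T, hT, hT'⟩ := fin_normal _ _ v hv'
  rcases T.eq_empty_or_nonempty with rfl | hne
  · refine Subgroup.normalClosure_mono (Set.image_mono ?_) hT'
    intro r hr
    exact absurd hr (Finset.notMem_empty r)
  · obtain ⟨m, hm, hmax⟩ := T.exists_max_image hR hne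
    refine key (max α (hR m)) (le_max_left _ _) ?_
    refine Subgroup.normalClosure_mono (Set.image_mono ?_) hT'
    intro r hr
    exact ⟨hT r hr, le_trans (hmax r hr) (le_max_right _ _)⟩

end Tower

end Pool.Agent.R15.OC
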