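import Pool.Agent.R15.OC.Tower

/-!
# The relative presentation of a pair of complexes
-/

set_option autoImplicit false

namespace Pool.Agent.R15.OC

open Pool.Agent.TH625.LOG (LocInd surj_of_ne exists_finset_hom free_li)

variable {X R A : Type} [Group A]

/-- The 1-cells `(x, a)` (from `a` to `a ρ(x)`) of the covering belonging to `ρ` through which the
path of a word passes which starts at `a`. -/
def occ (ρ : FreeGroup X →* A) : A → List (X × Bool) → List (X × A)
  | _, [] => []
  | a, (x, true) :: l => (x, a) :: occ ρ (a * ρ (FreeGroup.of x)) l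
  | a, (x, false) :: l =>
      (x, a * (ρ (FreeGroup.of x))⁻¹) :: occ ρ (a * (ρ (FreeGroup.of x))⁻¹) l

theorem mk_mem (Y : Set X) (l : List (X × Bool)) (h : ∀ p ∈ l, p.1 ∈ Y) :
    FreeGroup.mk l ∈ Subgroup.closure (FreeGroup.of '' Y) := by
  induction l with
  | nil => exact Subgroup.one_mem _
  | cons p l ih =>
    have h1 : FreeGroup.mk (p :: l) = FreeGroup.mk [p] * FreeGroup.mk l := by
      rw [FreeGroup.mul_mk]; rfl
    rw [h1]
    refine Subgroup.mul_mem _ ?_ (ih fun q hq => h q (List.mem_cons_of_mem _ hq))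
    have h2 : FreeGroup.of p.1 ∈ Subgroup.closure (FreeGroup.of '' Y) :=
      Subgroup.subset_closure ⟨p.1, h p List.mem_cons_self, rfl⟩
    obtain ⟨x, ε⟩ := p
    cases ε with
    | true => exact h2
    | false =>
      have h3 : FreeGroup.mk [(x, false)] = (FreeGroup.of x)⁻¹ := by
        show _ = (FreeGroup.mk [(x, true)])⁻¹
        rw [FreeGroup.inv_mk]
        rfl
      rw [h3]
      exact Subgroup.inv_mem _ h2

section Step

variable (att : R → List (X × Bool)) (Y : Set X) (Q₀ Q₁ : Set R)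

/-- the subgroup generated by the old generators -/
abbrev BY : Subgroup (Grp att Q₀) :=
  Subgroup.closure ((fun x => (PresentedGroup.of x : Grp att Q₀)) '' Y)

/-- an old generator -/
def oldg (x : X) (h : x ∈ Y) : BY att Y Q₀ :=
  ⟨PresentedGroup.of x, Subgroup.subset_closure ⟨x, h, rfl⟩⟩

open Classical in
/-- the free group maps to the relative free product -/
noncomputable def theta : FreeGroup X →* P (BY att Y Q₀) {x // x ∉ Y} :=
  FreeGroup.lift fun x => if h : x ∈ Y then bb _ (oldg att Y Q₀ x h) else gx _ ⟨x, h⟩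

theorem theta_old (x : X) (h : x ∈ Y) :
    theta att Y Q₀ (FreeGroup.of x) = bb _ (oldg att Y Q₀ x h) := by
  show FreeGroup.lift _ (FreeGroup.of x) = _
  rw [FreeGroup.lift_apply_of, dif_pos h]

theorem theta_new (x : X) (h : x ∉ Y) :
    theta att Y Q₀ (FreeGroup.of x) = gx _ ⟨x, h⟩ := by
  show FreeGroup.lift _ (FreeGroup.of x) = _
  rw [FreeGroup.lift_apply_of, dif_neg h]

theorem theta_Y (v : FreeGroup X) (hv : v ∈ Subgroup.closure (FreeGroup.of '' Y)) :
    ∃ b : BY att Y Q₀, (b : Grp att Q₀) = PresentedGroup.mk _ v ∧ theta att Y Q₀ v = bb _ b := by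
  induction hv using Subgroup.closure_induction with
  | mem x hx =>
    obtain ⟨y, hy, rfl⟩ := hx
    exact ⟨oldg att Y Q₀ y hy, rfl, theta_old att Y Q₀ y hy⟩
  | one =>
    refine ⟨1, ?_, ?_⟩
    · rw [map_one]; rfl
    · rw [map_one]
      exact (map_one (Monoid.Coprod.inl : BY att Y Q₀ →* P (BY att Y Q₀) {x // x ∉ Y})).symm
  | mul x y _ _ ihx ihy =>
    obtain ⟨b, h1, h2⟩ := ihx
    obtain ⟨c, h3, h4⟩ := ihy
    refine ⟨b * c, ?_, ?_⟩
    · rw [map_mul, ← h1, ← h3]; rfl
    · rw [map_mul, h2, h4]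
      exact (map_mul (Monoid.Coprod.inl : BY att Y Q₀ →* P (BY att Y Q₀) {x // x ∉ Y}) b c).symm
  | inv x _ ihx =>
    obtain ⟨b, h1, h2⟩ := ihx
    refine ⟨b⁻¹, ?_, ?_⟩
    · rw [map_inv, ← h1]; rfl
    · rw [map_inv, h2]
      exact (map_inv (Monoid.Coprod.inl : BY att Y Q₀ →* P (BY att Y Q₀) {x // x ∉ Y}) b).symm

theorem theta_rel (hQ₀ : ∀ r ∈ Q₀, ∀ p ∈ att r, p.1 ∈ Y) (r : R) (hr : r ∈ Q₀) :
    theta att Y Q₀ (FreeGroup.mk (att r)) = 1 := by
  obtain ⟨b, h1, h2⟩ := theta_Y att Y Q₀ (FreeGroup.mk (att r)) (mk_mem Y _ (hQ₀ r hr))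
  have h3 : (b : Grp att Q₀) = 1 := by
    rw [h1]
    exact PresentedGroup.one_of_mem ⟨r, hr, rfl⟩
  have h4 : b = 1 := Subtype.ext h3
  rw [h2, h4]
  exact map_one _

/-- the map induced by the inclusion -/
noncomputable def incl {Q Q' : Set R} (h : Q ⊆ Q') : Grp att Q →* Grp att Q' :=
  PresentedGroup.toGroup (f := fun x => (PresentedGroup.of x : Grp att Q')) (by
    rintro _ ⟨r, hr, rfl⟩
    have h1 : FreeGroup.lift (fun x => (PresentedGroup.of x : Grp att Q')) =
        PresentedGroup.mk _ := by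
      ext x
      rw [FreeGroup.lift_apply_of]
      rfl
    rw [h1]
    exact PresentedGroup.one_of_mem ⟨r, h hr, rfl⟩)

theorem incl_mk {Q Q' : Set R} (h : Q ⊆ Q') (v : FreeGroup X) :
    incl att h (PresentedGroup.mk _ v) = PresentedGroup.mk _ v := by
  have h1 : (incl att h).comp (PresentedGroup.mk _) = PresentedGroup.mk _ := by
    ext x
    show incl att h (PresentedGroup.of x) = PresentedGroup.of x
    exact PresentedGroup.toGroup.of _
  exact DFunLike.congr_fun h1 v

/-- the quotient map of the relative presentation -/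
noncomputable def prY : P (BY att Y Q₀) {x // x ∉ Y} →* Grp att (Q₀ ∪ Q₁) :=
  Monoid.Coprod.lift ((incl att Set.subset_union_left).comp (BY att Y Q₀).subtype)
    (FreeGroup.lift fun x => (PresentedGroup.of x.1 : Grp att (Q₀ ∪ Q₁)))

theorem prY_bb (b : BY att Y Q₀) :
    prY att Y Q₀ Q₁ (bb _ b) = incl att Set.subset_union_left (b : Grp att Q₀) :=
  Monoid.Coprod.lift_apply_inl _ _ _

theorem prY_gx (x : {x // x ∉ Y}) :
    prY att Y Q₀ Q₁ (gx _ x) = PresentedGroup.of x.1 := by
  show Monoid.Coprod.lift _ _ (Monoid.Coprod.inr (FreeGroup.of x)) = _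
  rw [Monoid.Coprod.lift_apply_inr, FreeGroup.lift_apply_of]

theorem prY_theta (v : FreeGroup X) :
    prY att Y Q₀ Q₁ (theta att Y Q₀ v) = PresentedGroup.mk _ v := by
  have h : (prY att Y Q₀ Q₁).comp (theta att Y Q₀) = PresentedGroup.mk _ := by
    ext x
    show prY att Y Q₀ Q₁ (theta att Y Q₀ (FreeGroup.of x)) = _
    by_cases hx : x ∈ Y
    · rw [theta_old att Y Q₀ x hx, prY_bb]
      exact incl_mk att _ (FreeGroup.of x)
    · rw [theta_new att Y Q₀ x hx, prY_gx]
      rfl
  exact DFunLike.congr_fun h v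

theorem prY_surj : Function.Surjective (prY att Y Q₀ Q₁) := by
  intro g
  obtain ⟨v, rfl⟩ := PresentedGroup.mk_surjective _ g
  exact ⟨theta att Y Q₀ v, prY_theta att Y Q₀ Q₁ v⟩

open Classical in
/-- letters -/
noncomputable def toL (p : X × Bool) : Letter (BY att Y Q₀) {x // x ∉ Y} :=
  if h : p.1 ∈ Y then
    Sum.inl (if p.2 then oldg att Y Q₀ p.1 h else (oldg att Y Q₀ p.1 h)⁻¹)
  else Sum.inr (⟨p.1, h⟩, p.2)

/-- the attaching words in the relative presentation -/
noncomputable def wd (r : Q₁) : List (Letter (BY att Y Q₀) {x // x ∉ Y}) :=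
  (att r.1).map (toL att Y Q₀)

theorem letval_toL (p : X × Bool) :
    letval (toL att Y Q₀ p) = theta att Y Q₀ (FreeGroup.mk [p]) := by
  obtain ⟨x, ε⟩ := p
  have h0 : FreeGroup.mk [(x, false)] = (FreeGroup.of x)⁻¹ := by
    show _ = (FreeGroup.mk [(x, true)])⁻¹
    rw [FreeGroup.inv_mk]
    rfl
  by_cases hx : x ∈ Y
  · have h1 : toL att Y Q₀ (x, ε) =
        Sum.inl (if ε then oldg att Y Q₀ x hx else (oldg att Y Q₀ x hx)⁻¹) := by
      unfold toL
      rw [dif_pos hx]
    rw [h1]
    cases ε with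
    | true => exact (theta_old att Y Q₀ x hx).symm
    | false =>
      rw [h0, map_inv, theta_old att Y Q₀ x hx]
      exact map_inv _ _
  · have h1 : toL att Y Q₀ (x, ε) = Sum.inr (⟨x, hx⟩, ε) := by
      unfold toL
      rw [dif_neg hx]
    rw [h1]
    cases ε with
    | true => exact (theta_new att Y Q₀ x hx).symm
    | false =>
      rw [h0, map_inv, theta_new att Y Q₀ x hx]
      rfl

theorem val_toL (l : List (X × Bool)) :
    val (l.map (toL att Y Q₀)) = theta att Y Q₀ (FreeGroup.mk l) := by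
  induction l with
  | nil =>
    rw [List.map_nil, val_nil]
    exact (map_one _).symm
  | cons p l ih =>
    have h1 : FreeGroup.mk (p :: l) = FreeGroup.mk [p] * FreeGroup.mk l := by
      rw [FreeGroup.mul_mk]; rfl
    rw [List.map_cons, val_cons, ih, h1, map_mul, letval_toL]

theorem prY_ker (hQ₀ : ∀ r ∈ Q₀, ∀ p ∈ att r, p.1 ∈ Y) :
    (prY att Y Q₀ Q₁).ker =
      Subgroup.normalClosure (Set.range fun r : Q₁ => val (wd att Y Q₀ Q₁ r)) := by
  apply le_antisymm
  · set N := Subgroup.normalClosure (Set.range fun r : Q₁ => val (wd att Y Q₀ Q₁ r)) with hN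
    let q : P (BY att Y Q₀) {x // x ∉ Y} →* P (BY att Y Q₀) {x // x ∉ Y} ⧸ N :=
      QuotientGroup.mk' N
    let g : Grp att (Q₀ ∪ Q₁) →* P (BY att Y Q₀) {x // x ∉ Y} ⧸ N :=
      PresentedGroup.toGroup (f := fun x => q (theta att Y Q₀ (FreeGroup.of x))) (by
        rintro _ ⟨r, hr, rfl⟩
        have h1 : FreeGroup.lift (fun x => q (theta att Y Q₀ (FreeGroup.of x))) =
            q.comp (theta att Y Q₀) := by
          ext x
          rw [FreeGroup.lift_apply_of]
          rfl
        rw [h1]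
        show q (theta att Y Q₀ (FreeGroup.mk (att r))) = 1
        rcases hr with hr | hr
        · rw [theta_rel att Y Q₀ hQ₀ r hr, map_one]
        · rw [← val_toL]
          exact (QuotientGroup.eq_one_iff _).2 (Subgroup.subset_normalClosure ⟨⟨r, hr⟩, rfl⟩))
    have hg : ∀ v : FreeGroup X, g (PresentedGroup.mk _ v) = q (theta att Y Q₀ v) := by
      intro v
      have h1 : g.comp (PresentedGroup.mk _) = q.comp (theta att Y Q₀) := by
        ext x
        show g (PresentedGroup.of x) = q (theta att Y Q₀ (FreeGroup.of x))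
        exact PresentedGroup.toGroup.of _
      exact DFunLike.congr_fun h1 v
    have hq : g.comp (prY att Y Q₀ Q₁) = q := by
      refine Monoid.Coprod.hom_ext ?_ ?_
      · ext b
        show g (prY att Y Q₀ Q₁ (bb _ b)) = q (bb _ b)
        rw [prY_bb]
        -- lift `b` to the free group
        obtain ⟨b, hb⟩ := b
        have hlift : ∃ v ∈ Subgroup.closure (FreeGroup.of '' Y),
            (PresentedGroup.mk _ v : Grp att Q₀) = b := by
          have h1 : BY att Y Q₀ = (Subgroup.closure (FreeGroup.of '' Y)).map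
              (PresentedGroup.mk _) := by
            rw [MonoidHom.map_closure, ← Set.image_comp]
            rfl
          rw [h1] at hb
          obtain ⟨v, hv, hv'⟩ := hb
          exact ⟨v, hv, hv'⟩
        obtain ⟨v, hv, hv'⟩ := hlift
        obtain ⟨c, hc, hc'⟩ := theta_Y att Y Q₀ v hv
        have h2 : c = ⟨b, hb⟩ := Subtype.ext (by rw [hc, hv'])
        rw [h2] at hc'
        rw [← hc', ← hg]
        show g (incl att _ b) = _
        rw [← hv', incl_mk]
      · ext x
        show g (prY att Y Q₀ Q₁ (gx _ x)) = q (gx _ x)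
        rw [prY_gx, ← theta_new att Y Q₀ x.1 x.2, ← hg]
        rfl
    intro p hp
    have h1 : q p = 1 := by
      rw [← hq]
      show g (prY att Y Q₀ Q₁ p) = 1
      rw [MonoidHom.mem_ker.1 hp, map_one]
    exact (QuotientGroup.eq_one_iff _).1 h1
  · refine Subgroup.normalClosure_le_normal ?_
    rintro _ ⟨r, rfl⟩
    show val (wd att Y Q₀ Q₁ r) ∈ (prY att Y Q₀ Q₁).ker
    rw [MonoidHom.mem_ker]
    unfold wd
    rw [val_toL, prY_theta]
    exact PresentedGroup.one_of_mem ⟨r.1, Or.inr r.2, rfl⟩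

end Step

end Pool.Agent.R15.OC
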