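import Pool.Agent.R15.OC.Stage
import Pool.Agent.TH625.LOG.Main

/-!
# The ordered test, subcomplexes, labelled oriented graphs
-/

set_option autoImplicit false

namespace Pool.Agent.R15.OC

open Pool.Agent.TH625.LOG (LocInd surj_of_ne exists_finset_hom free_li LOG)

variable {X R A : Type} [Group A]

theorem occ_mul (ρ : FreeGroup X →* A) (a : A) : ∀ (l : List (X × Bool)) (b : A),
    occ ρ (a * b) l = (occ ρ b l).map fun s => (s.1, a * s.2) := by
  intro l
  induction l with
  | nil => intro b; rfl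
  | cons p l ih =>
    intro b
    obtain ⟨y, ε⟩ := p
    cases ε with
    | true =>
      show (y, a * b) :: occ ρ (a * b * ρ (FreeGroup.of y)) l =
        (y, a * b) :: (occ ρ (b * ρ (FreeGroup.of y)) l).map _
      rw [mul_assoc, ih]
    | false =>
      show (y, a * b * (ρ (FreeGroup.of y))⁻¹) :: occ ρ (a * b * (ρ (FreeGroup.of y))⁻¹) l =
        (y, a * (b * (ρ (FreeGroup.of y))⁻¹)) :: (occ ρ (b * (ρ (FreeGroup.of y))⁻¹) l).map _
      rw [mul_assoc, ih]

theorem occ_one (ρ : FreeGroup X →* A) (a : A) (l : List (X × Bool)) :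
    occ ρ a l = (occ ρ 1 l).map fun s => (s.1, a * s.2) := by
  rw [← occ_mul, mul_one]

theorem count_occ [DecidableEq X] [DecidableEq A] (ρ : FreeGroup X →* A) (a : A)
    (l : List (X × Bool)) (x : X) (u : A) :
    (occ ρ a l).count (x, a * u) = (occ ρ 1 l).count (x, u) := by
  rw [occ_one ρ a l]
  have hinj : Function.Injective (fun s : X × A => (s.1, a * s.2)) := by
    rintro ⟨x, u⟩ ⟨y, v⟩ h
    have h1 : x = y := (Prod.mk.inj h).1
    have h2 : u = v := mul_left_cancel (Prod.mk.inj h).2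
    rw [h1, h2]
  exact List.count_map_of_injective _ _ hinj (x, u)

open Classical in
/-- The ordered test relative to the 1-cells `Y`: the group `A` acts on a linearly ordered set by
strictly monotone maps, the 2-cells `r ∈ Q₁` have weights `w r`, and every 2-cell `r ∈ Q₁` has a
side `c r` outside `Y`, passed exactly once, such that the corner `(c r).2⁻¹ • w r` is smaller than
all the other corners at the 1-cell `(c r).1`. -/
def OrderTest (ρ : FreeGroup X →* A) (att : R → List (X × Bool)) (Y : Set X) (Q₁ : Set R) :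
    Prop :=
  ∃ (Ω : Type) (_ : LinearOrder Ω) (_ : MulAction A Ω),
    (∀ a : A, StrictMono fun o : Ω => a • o) ∧
    ∃ (w : R → Ω) (c : R → X × A), ∀ r ∈ Q₁, (c r).1 ∉ Y ∧
      (occ ρ 1 (att r)).count (c r) = 1 ∧
      ∀ r' ∈ Q₁, ∀ u : A, ((c r).1, u) ∈ occ ρ 1 (att r') → (r', u) ≠ (r, (c r).2) →
        (c r).2⁻¹ • w r < u⁻¹ • w r'

theorem OrderTest.freeSides {ρ : FreeGroup X →* A} {att : R → List (X × Bool)} {Y : Set X}
    {Q₁ : Set R} (h : OrderTest ρ att Y Q₁) : FreeSidesRel ρ att Y Q₁ := by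
  classical
  obtain ⟨Ω, iΩ, iA, hmono, w, c, hc⟩ := h
  intro S hS hSQ
  obtain ⟨⟨r, a⟩, hd, hmax⟩ := S.exists_max_image (fun d => d.2 • w d.1) hS
  obtain ⟨h1, h2, h3⟩ := hc r (hSQ _ hd)
  refine ⟨(r, a), hd, ((c r).1, a * (c r).2), h1, ?_, ?_⟩
  · have h4 := count_occ ρ a (att r) (c r).1 (c r).2
    rw [h2] at h4
    exact h4
  · rintro ⟨r', a'⟩ hd' hne hmem
    simp only at hmem
    rw [occ_one, List.mem_map] at hmem
    obtain ⟨⟨x, u⟩, hs, hs'⟩ := hmem
    have h5 : x = (c r).1 := (Prod.mk.inj hs').1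
    have h6 : a' * u = a * (c r).2 := (Prod.mk.inj hs').2
    subst h5
    by_cases h7 : (r', u) = (r, (c r).2)
    · have h8 : r' = r := (Prod.mk.inj h7).1
      have h9 : u = (c r).2 := (Prod.mk.inj h7).2
      subst h8
      rw [h9] at h6
      exact hne (by rw [mul_right_cancel h6])
    · have h8 := h3 r' (hSQ _ hd') u hs h7
      have h9 := hmono (a * (c r).2) h8
      simp only at h9
      rw [← mul_smul, mul_inv_cancel_right, ← h6, ← mul_smul, mul_inv_cancel_right] at h9
      exact absurd (hmax (r', a') hd') (not_le.2 h9)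

/-- The fundamental group of the subcomplex with the 1-cells `Y` and the 2-cells `Q` of the
2-complex with one vertex, 1-cells `X` and attaching words `att`: the generators outside `Y` are
killed. -/
abbrev SubGrp (att : R → List (X × Bool)) (Y : Set X) (Q : Set R) : Type :=
  PresentedGroup ((fun r => FreeGroup.mk (att r)) '' Q ∪ FreeGroup.of '' Yᶜ)

theorem subGrp_li (att : R → List (X × Bool)) (Y : Set X) (Q : Set R)
    (hQ : ∀ r ∈ Q, ∀ p ∈ att r, p.1 ∈ Y) (h : LocInd (Grp att Q)) :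
    LocInd (SubGrp att Y Q) := by
  classical
  let f : X → Grp att Q := fun x => if x ∈ Y then PresentedGroup.of x else 1
  have hf : ∀ v ∈ Subgroup.closure (FreeGroup.of '' Y),
      FreeGroup.lift f v = PresentedGroup.mk _ v := by
    intro v hv
    refine MonoidHom.eqOn_closure (f := FreeGroup.lift f)
      (g := PresentedGroup.mk ((fun r => FreeGroup.mk (att r)) '' Q)) ?_ hv
    rintro _ ⟨x, hx, rfl⟩
    rw [FreeGroup.lift_apply_of]
    show (if x ∈ Y then _ else _) = _
    rw [if_pos hx]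
    rfl
  let j : SubGrp att Y Q →* Grp att Q := PresentedGroup.toGroup (f := f) (by
    rintro _ (⟨r, hr, rfl⟩ | ⟨x, hx, rfl⟩)
    · rw [hf _ (mk_mem Y _ (hQ r hr))]
      exact PresentedGroup.one_of_mem ⟨r, hr, rfl⟩
    · rw [FreeGroup.lift_apply_of]
      exact if_neg hx)
  let k : Grp att Q →* SubGrp att Y Q :=
    PresentedGroup.toGroup (f := fun x => (PresentedGroup.of x : SubGrp att Y Q)) (by
      rintro _ ⟨r, hr, rfl⟩
      have h1 : FreeGroup.lift (fun x => (PresentedGroup.of x : SubGrp att Y Q)) =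
          PresentedGroup.mk _ := by
        ext x
        rw [FreeGroup.lift_apply_of]
        rfl
      rw [h1]
      exact PresentedGroup.one_of_mem (Or.inl ⟨r, hr, rfl⟩))
  have hkj : k.comp j = MonoidHom.id _ := by
    ext x
    show k (j (PresentedGroup.of x)) = PresentedGroup.of x
    have h1 : j (PresentedGroup.of x) = f x := PresentedGroup.toGroup.of _
    rw [h1]
    by_cases hx : x ∈ Y
    · have h2 : f x = PresentedGroup.of x := if_pos hx
      rw [h2]
      exact PresentedGroup.toGroup.of _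
    · have h2 : f x = 1 := if_neg hx
      rw [h2, map_one]
      exact (PresentedGroup.one_of_mem (Or.inr ⟨x, hx, rfl⟩)).symm
  refine locInd_of_inj h j ?_
  intro x y hxy
  have h1 := DFunLike.congr_fun hkj x
  have h2 := DFunLike.congr_fun hkj y
  have h3 : k (j x) = x := h1
  have h4 : k (j y) = y := h2
  rw [← h3, ← h4, hxy]

section LOG

variable {V E ι : Type} [LinearOrder ι]

/-- The attaching words of the 2-complex of a labelled oriented graph. -/
def latt (L : LOG V E) (e : E) : List (V × Bool) :=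
  [(L.ini e, true), (L.lab e, true), (L.ter e, false), (L.lab e, false)]

theorem latt_rel (L : LOG V E) (e : E) : FreeGroup.mk (latt L e) = L.rel e := by
  unfold LOG.rel latt
  rw [← mk_false, ← mk_false]
  show _ = FreeGroup.mk _ * FreeGroup.mk _ * FreeGroup.mk _ * FreeGroup.mk _
  rw [FreeGroup.mul_mk, FreeGroup.mul_mk, FreeGroup.mul_mk]
  rfl

/-- The forest condition for the stage `α` with the vertices `f e`, `g e`: every nonempty finite set
of edges of the stage `α` has a vertex of the stage `α` which occurs exactly once among the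
vertices `f e` and `g e`. -/
def Peel (f g : E → V) (hV : V → ι) (hE : E → ι) (α : ι) : Prop :=
  ∀ S : Finset E, S.Nonempty → (∀ e ∈ S, hE e = α) → ∃ e ∈ S, ∃ v, hV v = α ∧
    ((f e = v ∧ g e ≠ v) ∨ (f e ≠ v ∧ g e = v)) ∧ ∀ e' ∈ S, e' ≠ e → f e' ≠ v ∧ g e' ≠ v

theorem locInd_int : LocInd (Multiplicative ℤ) := by
  intro H _ hne
  refine surj_of_ne H.subtype ?_
  by_contra hcon
  push Not at hcon
  apply hne
  rw [Subgroup.eq_bot_iff_forall]
  intro x hx
  exact hcon ⟨x, hx⟩

/-- all generators have height 1 -/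
def ht : FreeGroup V →* Multiplicative ℤ := FreeGroup.lift fun _ => Multiplicative.ofAdd 1

theorem ht_of (v : V) : ht (FreeGroup.of v) = Multiplicative.ofAdd 1 := FreeGroup.lift_apply_of

theorem ht_rel (L : LOG V E) (e : E) : ht (FreeGroup.mk (latt L e)) = 1 := by
  rw [latt_rel]
  unfold LOG.rel
  simp only [map_mul, map_inv, ht_of]
  rfl

theorem occ_latt (L : LOG V E) (e : E) (n : ℤ) :
    occ ht (Multiplicative.ofAdd n) (latt L e) =
      [(L.ini e, Multiplicative.ofAdd n), (L.lab e, Multiplicative.ofAdd (n + 1)),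
        (L.ter e, Multiplicative.ofAdd (n + 1)), (L.lab e, Multiplicative.ofAdd n)] := by
  show [(L.ini e, Multiplicative.ofAdd n),
    (L.lab e, Multiplicative.ofAdd n * ht (FreeGroup.of (L.ini e))),
    (L.ter e, Multiplicative.ofAdd n * ht (FreeGroup.of (L.ini e)) *
      ht (FreeGroup.of (L.lab e)) * (ht (FreeGroup.of (L.ter e)))⁻¹),
    (L.lab e, Multiplicative.ofAdd n * ht (FreeGroup.of (L.ini e)) *
      ht (FreeGroup.of (L.lab e)) * (ht (FreeGroup.of (L.ter e)))⁻¹ *
      (ht (FreeGroup.of (L.lab e)))⁻¹)] = _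
  rw [ht_of, ht_of, ht_of, mul_inv_cancel_right, mul_inv_cancel_right]
  rfl

theorem stage_top (L : LOG V E) (hV : V → ι) (hE : E → ι)
    (α : ι) (h : Peel L.lab L.ter hV hE α) :
    FreeSidesRel (ht : FreeGroup V →* Multiplicative ℤ) (latt L) {x | hV x < α}
      {r | hE r = α} := by
  classical
  intro S hS hSQ
  obtain ⟨⟨r, a⟩, hd, hmax⟩ := S.exists_max_image (fun d => Multiplicative.toAdd d.2) hS
  obtain ⟨e, he, v, hv, hv1, hv2⟩ := h ((S.filter fun d => d.2 = a).image Prod.fst)
    ⟨r, Finset.mem_image.2 ⟨(r, a), Finset.mem_filter.2 ⟨hd, rfl⟩, rfl⟩⟩ (by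
      intro e he
      obtain ⟨d, hd, rfl⟩ := Finset.mem_image.1 he
      exact hSQ d (Finset.mem_filter.1 hd).1)
  obtain ⟨⟨e1, a1⟩, hd1, he1⟩ := Finset.mem_image.1 he
  obtain ⟨hd2, ha1⟩ := Finset.mem_filter.1 hd1
  simp only at he1 ha1
  subst he1 ha1
  obtain ⟨n, hn⟩ : ∃ n : ℤ, a1 = Multiplicative.ofAdd n := ⟨Multiplicative.toAdd a1, rfl⟩
  subst a1
  have hne1 : Multiplicative.ofAdd n ≠ Multiplicative.ofAdd (n + 1) := by
    intro h
    have h2 : n = n + 1 := h
    omega
  refine ⟨(e1, Multiplicative.ofAdd n), hd2, (v, Multiplicative.ofAdd (n + 1)), ?_, ?_, ?_⟩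
  · show ¬ hV v < α
    rw [hv]; exact lt_irrefl _
  · have hcount : (occ ht (Multiplicative.ofAdd n) (latt L e1)).count
        (v, Multiplicative.ofAdd (n + 1)) = 1 := by
      rw [occ_latt]
      have e1' : ∀ z : V, (z, Multiplicative.ofAdd n) ≠ (v, Multiplicative.ofAdd (n + 1)) :=
        fun z h => hne1 (Prod.mk.inj h).2
      rw [List.count_cons_of_ne (e1' _)]
      rcases hv1 with ⟨h1, h2⟩ | ⟨h1, h2⟩
      · rw [h1, List.count_cons_self, List.count_cons_of_ne (fun h => h2 (Prod.mk.inj h).1),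
          List.count_cons_of_ne (fun h => hne1 (Prod.mk.inj h).2)]
        rfl
      · rw [h2, List.count_cons_of_ne (fun h => h1 (Prod.mk.inj h).1), List.count_cons_self,
          List.count_cons_of_ne (e1' _)]
        rfl
    exact (count_bi _ _ inferInstance inferInstance _ _).trans hcount
  · rintro ⟨e', a'⟩ hd' hne hmem
    obtain ⟨m, hm0⟩ : ∃ m : ℤ, a' = Multiplicative.ofAdd m := ⟨Multiplicative.toAdd a', rfl⟩
    subst a'
    simp only [occ_latt, List.mem_cons, List.not_mem_nil, or_false] at hmem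
    have hm : m ≤ n := hmax _ hd'
    have hno : ∀ z : V, (v, Multiplicative.ofAdd (n + 1)) ≠ (z, Multiplicative.ofAdd m) := by
      intro z h
      have h2 : n + 1 = m := (Prod.mk.inj h).2
      omega
    have hyes : ∀ z : V, (v, Multiplicative.ofAdd (n + 1)) = (z, Multiplicative.ofAdd (m + 1)) →
        v = z ∧ m = n := by
      intro z h
      have h2 : n + 1 = m + 1 := (Prod.mk.inj h).2
      exact ⟨(Prod.mk.inj h).1, by omega⟩
    rcases hmem with h1 | h1 | h1 | h1
    · exact hno _ h1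
    · obtain ⟨h2, rfl⟩ := hyes _ h1
      have h3 : e' ≠ e1 := fun h => hne (by rw [h])
      exact (hv2 e' (Finset.mem_image.2 ⟨_, Finset.mem_filter.2 ⟨hd', rfl⟩, rfl⟩) h3).1 h2.symm
    · obtain ⟨h2, rfl⟩ := hyes _ h1
      have h3 : e' ≠ e1 := fun h => hne (by rw [h])
      exact (hv2 e' (Finset.mem_image.2 ⟨_, Finset.mem_filter.2 ⟨hd', rfl⟩, rfl⟩) h3).2 h2.symm
    · exact hno _ h1

theorem stage_bot (L : LOG V E) (hV : V → ι) (hE : E → ι)
    (α : ι) (h : Peel L.lab L.ini hV hE α) :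
    FreeSidesRel (ht : FreeGroup V →* Multiplicative ℤ) (latt L) {x | hV x < α}
      {r | hE r = α} := by
  classical
  intro S hS hSQ
  obtain ⟨⟨r, a⟩, hd, hmin⟩ := S.exists_min_image (fun d => Multiplicative.toAdd d.2) hS
  obtain ⟨e, he, v, hv, hv1, hv2⟩ := h ((S.filter fun d => d.2 = a).image Prod.fst)
    ⟨r, Finset.mem_image.2 ⟨(r, a), Finset.mem_filter.2 ⟨hd, rfl⟩, rfl⟩⟩ (by
      intro e he
      obtain ⟨d, hd, rfl⟩ := Finset.mem_image.1 he
      exact hSQ d (Finset.mem_filter.1 hd).1)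
  obtain ⟨⟨e1, a1⟩, hd1, he1⟩ := Finset.mem_image.1 he
  obtain ⟨hd2, ha1⟩ := Finset.mem_filter.1 hd1
  simp only at he1 ha1
  subst he1 ha1
  obtain ⟨n, hn⟩ : ∃ n : ℤ, a1 = Multiplicative.ofAdd n := ⟨Multiplicative.toAdd a1, rfl⟩
  subst a1
  have e1' : ∀ z : V, (z, Multiplicative.ofAdd (n + 1)) ≠ (v, Multiplicative.ofAdd n) := by
    intro z h
    have h2 : n + 1 = n := (Prod.mk.inj h).2
    omega
  refine ⟨(e1, Multiplicative.ofAdd n), hd2, (v, Multiplicative.ofAdd n), ?_, ?_, ?_⟩
  · show ¬ hV v < α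
    rw [hv]; exact lt_irrefl _
  · have hcount : (occ ht (Multiplicative.ofAdd n) (latt L e1)).count
        (v, Multiplicative.ofAdd n) = 1 := by
      rw [occ_latt]
      rcases hv1 with ⟨h1, h2⟩ | ⟨h1, h2⟩
      · rw [h1, List.count_cons_of_ne (fun h => h2 (Prod.mk.inj h).1),
          List.count_cons_of_ne (e1' _), List.count_cons_of_ne (e1' _), List.count_cons_self]
        rfl
      · rw [h2, List.count_cons_self, List.count_cons_of_ne (e1' _), List.count_cons_of_ne (e1' _),
          List.count_cons_of_ne (fun h => h1 (Prod.mk.inj h).1)]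
        rfl
    exact (count_bi _ _ inferInstance inferInstance _ _).trans hcount
  · rintro ⟨e', a'⟩ hd' hne hmem
    obtain ⟨m, hm0⟩ : ∃ m : ℤ, a' = Multiplicative.ofAdd m := ⟨Multiplicative.toAdd a', rfl⟩
    subst a'
    simp only [occ_latt, List.mem_cons, List.not_mem_nil, or_false] at hmem
    have hm : n ≤ m := hmin _ hd'
    have hno : ∀ z : V, (v, Multiplicative.ofAdd n) ≠ (z, Multiplicative.ofAdd (m + 1)) := by
      intro z h
      have h2 : n = m + 1 := (Prod.mk.inj h).2
      omega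
    have hyes : ∀ z : V, (v, Multiplicative.ofAdd n) = (z, Multiplicative.ofAdd m) →
        v = z ∧ m = n := by
      intro z h
      have h2 : n = m := (Prod.mk.inj h).2
      exact ⟨(Prod.mk.inj h).1, h2.symm⟩
    rcases hmem with h1 | h1 | h1 | h1
    · obtain ⟨h2, rfl⟩ := hyes _ h1
      have h3 : e' ≠ e1 := fun h => hne (by rw [h])
      exact (hv2 e' (Finset.mem_image.2 ⟨_, Finset.mem_filter.2 ⟨hd', rfl⟩, rfl⟩) h3).2 h2.symm
    · exact hno _ h1
    · exact hno _ h1
    · obtain ⟨h2, rfl⟩ := hyes _ h1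
      have h3 : e' ≠ e1 := fun h => hne (by rw [h])
      exact (hv2 e' (Finset.mem_image.2 ⟨_, Finset.mem_filter.2 ⟨hd', rfl⟩, rfl⟩) h3).1 h2.symm

theorem stage_log (L : LOG V E) (hV : V → ι) (hE : E → ι) (α : ι)
    (h : Peel L.lab L.ter hV hE α ∨ Peel L.lab L.ini hV hE α) : Stage (latt L) hV hE α := by
  refine ⟨Multiplicative ℤ, inferInstance, ht, locInd_int, fun r _ => ht_rel L r, ?_⟩
  rcases h with h | h
  · exact stage_top L hV hE α h
  · exact stage_bot L hV hE α h

end LOG

end Pool.Agent.R15.OC
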