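import Pool.Agent.R15.OC.Ker

/-!
# Towers of relative free side tests
-/

set_option autoImplicit false

namespace Pool.Agent.R15.OC

open Pool.Agent.TH625.LOG (LocInd surj_of_ne exists_finset_hom free_li)

variable {X R : Type}

/-- The fundamental group of the 2-complex with one vertex, the 1-cells `x : X` and the 2-cells
`r ∈ Q`, where the 2-cell `r` is attached along the word `att r`. -/
abbrev Grp (att : R → List (X × Bool)) (Q : Set R) : Type :=
  PresentedGroup ((fun r => FreeGroup.mk (att r)) '' Q)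

/-- a normal closure is the union of the normal closures of the finite subsets -/
theorem fin_normal {F : Type} [Group F] (f : R → F) (Q : Set R) (v : F)
    (hv : v ∈ Subgroup.normalClosure (f '' Q)) :
    ∃ T : Finset R, (∀ r ∈ T, r ∈ Q) ∧
      v ∈ Subgroup.normalClosure (f '' {r | r ∈ T}) := by
  classical
  have hv' : v ∈ Subgroup.closure (Group.conjugatesOfSet (f '' Q)) := hv
  induction hv' using Subgroup.closure_induction with
  | mem x hx =>
    obtain ⟨_, ⟨q, hq, rfl⟩, hr⟩ := Group.mem_conjugatesOfSet_iff.1 hx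
    refine ⟨{q}, ?_, ?_⟩
    · intro r hr
      rw [Finset.mem_singleton.1 hr]; exact hq
    · apply Subgroup.conjugatesOfSet_subset_normalClosure
      rw [Group.mem_conjugatesOfSet_iff]
      exact ⟨f q, ⟨q, Finset.mem_singleton_self q, rfl⟩, hr⟩
  | one => exact ⟨∅, fun r hr => absurd hr (Finset.notMem_empty r), Subgroup.one_mem _⟩
  | mul x y hx hy ihx ihy =>
    obtain ⟨S, hS, hS'⟩ := ihx hx
    obtain ⟨T, hT, hT'⟩ := ihy hy
    refine ⟨S ∪ T, ?_, ?_⟩
    · intro r hr
      rcases Finset.mem_union.1 hr with h | h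
      · exact hS r h
      · exact hT r h
    · refine Subgroup.mul_mem _ ?_ ?_
      · exact Subgroup.normalClosure_mono
          (Set.image_mono fun r hr => Finset.mem_union_left _ hr) hS'
      · exact Subgroup.normalClosure_mono
          (Set.image_mono fun r hr => Finset.mem_union_right _ hr) hT'
  | inv x hx ihx =>
    obtain ⟨S, hS, hS'⟩ := ihx hx
    exact ⟨S, hS, Subgroup.inv_mem _ hS'⟩

/-- direct limits -/
theorem limit_li (att : R → List (X × Bool)) (Q : Set R)
    (h : ∀ F : Finset R, (∀ r ∈ F, r ∈ Q) →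
      ∃ Q' : Set R, (∀ r ∈ F, r ∈ Q') ∧ Q' ⊆ Q ∧ LocInd (Grp att Q')) :
    LocInd (Grp att Q) := by
  classical
  intro H hH hne
  by_contra hcon0
  have hcon : ∀ (ψ : H →* Multiplicative ℤ) (x : H), ψ x = 1 := by
    intro ψ x
    by_contra hx
    exact hcon0 (surj_of_ne ψ ⟨x, hx⟩)
  have : Group.FG H := (Group.fg_iff_subgroup_fg H).2 hH
  obtain ⟨α, hα, Φ, hΦ⟩ := Group.fg_iff_exists_freeGroup_hom_surjective_finite.1 this
  have hsurj : Function.Surjective
      (PresentedGroup.mk ((fun r => FreeGroup.mk (att r)) '' Q)) := PresentedGroup.mk_surjective _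
  choose lft hlft using hsurj
  let W : FreeGroup α →* FreeGroup X := FreeGroup.lift fun i => lft (Φ (FreeGroup.of i))
  have hW : ∀ x, PresentedGroup.mk ((fun r => FreeGroup.mk (att r)) '' Q) (W x) = Φ x := by
    intro x
    have h : (PresentedGroup.mk ((fun r => FreeGroup.mk (att r)) '' Q)).comp W =
        H.subtype.comp Φ := by
      ext i
      show PresentedGroup.mk ((fun r => FreeGroup.mk (att r)) '' Q) (W (FreeGroup.of i)) =
        ((Φ (FreeGroup.of i) : H) : Grp att Q)
      have h2 : W (FreeGroup.of i) = lft (Φ (FreeGroup.of i)) := FreeGroup.lift_apply_of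
      rw [h2, hlft]
    exact DFunLike.congr_fun h x
  obtain ⟨T, hTK, hT⟩ := exists_finset_hom Φ.ker
  have hcells : ∀ x ∈ T, ∃ S : Finset R, (∀ r ∈ S, r ∈ Q) ∧
      W x ∈ Subgroup.normalClosure ((fun r => FreeGroup.mk (att r)) '' {r | r ∈ S}) := by
    intro x hx
    refine fin_normal _ Q (W x) ?_
    rw [← PresentedGroup.mk_eq_one_iff, hW, (MonoidHom.mem_ker).1 (hTK x hx)]
    rfl
  choose! S hS hS' using hcells
  obtain ⟨Q', hQ1, hQ2, hQ3⟩ := h (T.biUnion S) (by
    intro r hr
    obtain ⟨x, hx, hr⟩ := Finset.mem_biUnion.1 hr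
    exact hS x hx r hr)
  let Θ : FreeGroup α →* Grp att Q' := (PresentedGroup.mk _).comp W
  have hΘT : ∀ x ∈ T, Θ x = 1 := by
    intro x hx
    show PresentedGroup.mk _ (W x) = 1
    rw [PresentedGroup.mk_eq_one_iff]
    exact Subgroup.normalClosure_mono (Set.image_mono
      fun r hr => hQ1 r (Finset.mem_biUnion.2 ⟨x, hx, hr⟩)) (hS' x hx)
  have hJ : Θ.range = ⊥ := by
    by_contra hJ
    have hfg : Θ.range.FG := (Group.fg_iff_subgroup_fg _).1
      (Group.fg_of_surjective Θ.rangeRestrict_surjective)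
    obtain ⟨ψ, hψ⟩ := hQ3 Θ.range hfg hJ
    obtain ⟨⟨_, y, rfl⟩, hy⟩ := hψ (Multiplicative.ofAdd (1 : ℤ))
    have hy1 : ψ ⟨Θ y, y, rfl⟩ ≠ 1 := by
      rw [hy]
      intro h
      have h2 : (1 : ℤ) = 0 := h
      exact one_ne_zero h2
    apply hy1
    let φ : FreeGroup α →* Multiplicative ℤ := ψ.comp Θ.rangeRestrict
    have hφ : ∀ x ∈ Φ.ker, φ x = 1 := by
      apply hT φ
      intro x hx
      show ψ (Θ.rangeRestrict x) = 1
      have h1 : Θ.rangeRestrict x = 1 := Subtype.ext (hΘT x hx)
      rw [h1, map_one]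
    let f : H →* Multiplicative ℤ :=
      Φ.liftOfRightInverse (Function.surjInv hΦ) (Function.rightInverse_surjInv hΦ)
        ⟨φ, fun x hx => MonoidHom.mem_ker.2 (hφ x hx)⟩
    have hf : ∀ x, f (Φ x) = φ x := fun x =>
      Φ.liftOfRightInverse_comp_apply (Function.surjInv hΦ) (Function.rightInverse_surjInv hΦ) _ x
    have h2 := hcon f (Φ y)
    rw [hf] at h2
    exact h2
  apply hne
  rw [Subgroup.eq_bot_iff_forall]
  intro h hh
  obtain ⟨x, hx⟩ := hΦ ⟨h, hh⟩
  have h1 : Θ x = 1 := by
    have h2 : Θ x ∈ Θ.range := ⟨x, rfl⟩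
    rw [hJ] at h2
    exact Subgroup.mem_bot.1 h2
  have h3 : PresentedGroup.mk ((fun r => FreeGroup.mk (att r)) '' Q) (W x) = 1 := by
    have h4 : PresentedGroup.mk ((fun r => FreeGroup.mk (att r)) '' Q') (W x) = 1 := h1
    rw [PresentedGroup.mk_eq_one_iff] at h4 ⊢
    exact Subgroup.normalClosure_mono (Set.image_mono hQ2) h4
  rw [hW, hx] at h3
  exact h3

/-- free groups are locally indicable -/
theorem locInd_free : LocInd (FreeGroup X) := by
  intro H _ hne
  obtain ⟨ψ, hψ⟩ := free_li H hne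
  exact surj_of_ne ψ hψ

/-- subgroups -/
theorem locInd_of_inj {G A : Type} [Group G] [Group A] (hA : LocInd A) (f : G →* A)
    (hf : Function.Injective f) : LocInd G := by
  intro H hH hne
  refine hA.of_hom hH f ?_
  intro hk
  apply hne
  rw [Subgroup.eq_bot_iff_forall]
  intro x hx
  exact hf (by rw [map_one]; exact MonoidHom.mem_ker.1 (hk hx))

theorem locInd_empty (att : R → List (X × Bool)) : LocInd (Grp att (∅ : Set R)) := by
  let g : Grp att (∅ : Set R) →* FreeGroup X :=
    PresentedGroup.toGroup (f := FreeGroup.of) (by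
      rintro _ ⟨r, hr, -⟩
      exact absurd hr (Set.notMem_empty r))
  refine locInd_of_inj locInd_free g ?_
  intro x y hxy
  obtain ⟨u, rfl⟩ := PresentedGroup.mk_surjective _ x
  obtain ⟨v, rfl⟩ := PresentedGroup.mk_surjective _ y
  have h1 : ∀ u : FreeGroup X, g (PresentedGroup.mk _ u) = u := by
    intro u
    have h2 : g.comp (PresentedGroup.mk _) = MonoidHom.id _ := by
      ext x
      show g (PresentedGroup.of x) = FreeGroup.of x
      exact PresentedGroup.toGroup.of _
    exact DFunLike.congr_fun h2 u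
  rw [h1, h1] at hxy
  rw [hxy]

end Pool.Agent.R15.OC
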